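import Mathlib

/-! Kuyk's theorem, part 1: splitting a monic polynomial over a power series ring (Hensel). -/

set_option autoImplicit false

namespace Pool.Agent.H298R2.Kuyk

open Polynomial

theorem eq_of_dvd_monic {A : Type} [CommRing A] [IsDomain A] {p q : A[X]} (hp : p.Monic)
    (hq : q.Monic) (hd : p ∣ q) (hle : q.natDegree ≤ p.natDegree) : p = q := by
  obtain ⟨r, hr⟩ := hd
  have hr0 : r ≠ 0 := by
    rintro rfl
    rw [mul_zero] at hr
    exact hq.ne_zero hr
  have h1 : q.natDegree = p.natDegree + r.natDegree := by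
    rw [hr, natDegree_mul hp.ne_zero hr0]
  have h2 : r.natDegree = 0 := by omega
  have h3 : r.Monic := by
    have := hq
    rw [hr] at this
    exact hp.of_mul_monic_left this
  have h4 : r = 1 := h3.natDegree_eq_zero.mp h2
  rw [hr, h4, mul_one]

theorem hensel_split {A : Type} [CommRing A] [IsDomain A] (h : (PowerSeries A)[X]) (hm : h.Monic)
    (s : Finset A) (hs : h.map PowerSeries.constantCoeff = ∏ c ∈ s, (X - C c))
    (hd : ∀ c ∈ s, ∀ c' ∈ s, c ≠ c' → IsUnit (c - c')) :
    ∃ y : A → PowerSeries A, (∀ c ∈ s, PowerSeries.constantCoeff (y c) = c) ∧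
      h = ∏ c ∈ s, (X - C (y c)) := by
  classical
  have key : ∀ c ∈ s, ∃ a : PowerSeries A, h.IsRoot a ∧ PowerSeries.constantCoeff a = c := by
    intro c hc
    have h1 : h.eval (PowerSeries.C c) ∈ Ideal.span {(PowerSeries.X : PowerSeries A)} := by
      rw [Ideal.mem_span_singleton, PowerSeries.X_dvd_iff]
      rw [← Polynomial.eval_map_apply, hs, Polynomial.eval_prod]
      apply Finset.prod_eq_zero hc
      simp
    have h2 : IsUnit (h.derivative.eval (PowerSeries.C c)) := by
      rw [PowerSeries.isUnit_iff_constantCoeff]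
      rw [← Polynomial.eval_map_apply, ← Polynomial.derivative_map, hs]
      rw [← Finset.mul_prod_erase s _ hc, derivative_mul, eval_add, eval_mul, eval_mul,
        derivative_sub, derivative_X, derivative_C, sub_zero, eval_one, one_mul, eval_sub, eval_X,
        eval_C, PowerSeries.constantCoeff_C, sub_self, zero_mul, add_zero, eval_prod]
      rw [IsUnit.prod_iff]
      intro c' hc'
      rw [Finset.mem_erase] at hc'
      rw [eval_sub, eval_X, eval_C]
      exact hd c hc c' hc'.2 (Ne.symm hc'.1)
    obtain ⟨a, ha, ha'⟩ := HenselianRing.is_henselian (R := PowerSeries A)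
      (I := Ideal.span {(PowerSeries.X : PowerSeries A)}) h hm (PowerSeries.C c) h1
      (h2.map (Ideal.Quotient.mk _))
    refine ⟨a, ha, ?_⟩
    rw [Ideal.mem_span_singleton, PowerSeries.X_dvd_iff, map_sub,
      PowerSeries.constantCoeff_C, sub_eq_zero] at ha'
    exact ha'
  choose! y hy1 hy2 using key
  refine ⟨y, hy2, ?_⟩
  have hinj : Set.InjOn y s := by
    intro c hc c' hc' he
    rw [← hy2 c hc, ← hy2 c' hc', he]
  symm
  apply eq_of_dvd_monic (monic_prod_of_monic _ _ fun c _ => monic_X_sub_C _) hm
  · have h3 : ∏ c ∈ s, (X - C (y c)) = ((s.val.map y).map fun a => X - C a).prod := by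
      rw [Multiset.map_map]
      rfl
    rw [h3, Multiset.prod_X_sub_C_dvd_iff_le_roots hm.ne_zero]
    rw [Multiset.le_iff_subset (Multiset.Nodup.map_on hinj s.nodup)]
    intro a ha
    rw [Multiset.mem_map] at ha
    obtain ⟨c, hc, rfl⟩ := ha
    rw [mem_roots hm.ne_zero]
    exact hy1 c hc
  · have h4 : h.natDegree = s.card := by
      rw [← hm.natDegree_map (PowerSeries.constantCoeff (R := A)), hs,
        natDegree_prod_of_monic _ _ (fun c _ => monic_X_sub_C _)]
      simp
    rw [h4, natDegree_prod_of_monic _ _ (fun c _ => monic_X_sub_C _)]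
    simp

end Pool.Agent.H298R2.Kuyk
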