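import Mathlib
import Pool.Agent.H298R2.Kuyk1

/-! Kuyk's theorem, part 2: auxiliary lemmas. -/

set_option autoImplicit false

namespace Pool.Agent.H298R2.Kuyk

open Polynomial

theorem coeff_swap {A : Type} [CommRing A] (p : A[X][X]) (i j : ℕ) :
    ((Bivariate.swap p).coeff j).coeff i = (p.coeff i).coeff j := by
  induction p using Polynomial.induction_on' with
  | add p q hp hq => simp only [map_add, coeff_add, hp, hq]
  | monomial n a =>
    induction a using Polynomial.induction_on' with
    | add p q hp hq => simp only [map_add, coeff_add, hp, hq]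
    | monomial m r =>
      rw [Bivariate.swap_monomial_monomial]
      simp only [coeff_monomial]
      by_cases h1 : m = j <;> by_cases h2 : n = i <;> simp [h1, h2, coeff_monomial]

/-- the inner degree of a factor is bounded -/
theorem inner_degree_le {A : Type} [CommRing A] [IsDomain A] (p q : A[X][X]) (hq : q ≠ 0)
    (hd : p ∣ q) (D : ℕ) (hD : ∀ i j, D < j → (q.coeff i).coeff j = 0) :
    ∀ i j, D < j → (p.coeff i).coeff j = 0 := by
  obtain ⟨r, rfl⟩ := hd
  intro i j hj
  have hp0 : p ≠ 0 := left_ne_zero_of_mul hq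
  have hr0 : r ≠ 0 := right_ne_zero_of_mul hq
  have e : Bivariate.swap (p * r) = Bivariate.swap p * Bivariate.swap r := map_mul _ _ _
  have hp1 : Bivariate.swap p ≠ 0 := by
    rw [Ne, EmbeddingLike.map_eq_zero_iff]; exact hp0
  have hr1 : Bivariate.swap r ≠ 0 := by
    rw [Ne, EmbeddingLike.map_eq_zero_iff]; exact hr0
  have h1 : (Bivariate.swap (p * r)).natDegree ≤ D := by
    rw [natDegree_le_iff_coeff_eq_zero]
    intro j hj
    ext i
    rw [coeff_swap, hD i j hj, coeff_zero]
  have h2 : (Bivariate.swap p).natDegree ≤ D := by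
    rw [e, natDegree_mul hp1 hr1] at h1
    omega
  rw [← coeff_swap, coeff_eq_zero_of_natDegree_lt (lt_of_le_of_lt h2 hj), coeff_zero]

/-- a monic divisor of a product of distinct linear factors is a subproduct -/
theorem dvd_prod_split {A ι : Type} [CommRing A] [IsDomain A] (s : Finset ι) (r : ι → A)
    (hr : Set.InjOn r s) (p : A[X]) (hp : p.Monic) (hd : p ∣ ∏ c ∈ s, (X - C (r c))) :
    ∃ J : Finset ι, J ⊆ s ∧ p = ∏ c ∈ J, (X - C (r c)) := by
  classical
  have h0 : (∏ c ∈ s, (X - C (r c))) ≠ 0 :=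
    (monic_prod_of_monic _ _ fun c _ => monic_X_sub_C _).ne_zero
  have hs : (∏ c ∈ s, (X - C (r c))).Splits := Splits.prod fun c _ => Splits.X_sub_C _
  have hps : p.Splits := hs.of_dvd h0 hd
  have hroots : (∏ c ∈ s, (X - C (r c))).roots = s.val.map r := by
    have h3 : ∏ c ∈ s, (X - C (r c)) = ((s.val.map r).map fun a => X - C a).prod := by
      rw [Multiset.map_map]
      rfl
    rw [h3, roots_multiset_prod_X_sub_C]
  have hle : p.roots ≤ s.val.map r := by
    rw [← hroots]
    exact roots.le_of_dvd h0 hd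
  have hnd : (s.val.map r).Nodup := Multiset.Nodup.map_on hr s.nodup
  let J : Finset ι := s.filter fun c => r c ∈ p.roots
  have hJs : J ⊆ s := Finset.filter_subset _ _
  refine ⟨J, hJs, ?_⟩
  have hJ : p.roots = J.val.map r := by
    rw [Multiset.Nodup.ext (Multiset.nodup_of_le hle hnd)
      (Multiset.Nodup.map_on (hr.mono hJs) J.nodup)]
    intro a
    constructor
    · intro ha
      have h4 := Multiset.subset_of_le hle ha
      rw [Multiset.mem_map] at h4 ⊢
      obtain ⟨c, hc, rfl⟩ := h4
      exact ⟨c, Finset.mem_filter.mpr ⟨hc, ha⟩, rfl⟩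
    · intro ha
      rw [Multiset.mem_map] at ha
      obtain ⟨c, hc, rfl⟩ := ha
      exact (Finset.mem_filter.mp hc).2
  rw [hps.eq_prod_roots_of_monic hp, hJ, Multiset.map_map]
  rfl

section lam

variable {K Kb ι : Type} [Field K] [Field Kb] [Algebra K Kb]

theorem lam (f : Kb →ₗ[K] K) (z : MvPolynomial ι Kb) :
    ∃ G : MvPolynomial ι K, (∀ m, G.coeff m = f (z.coeff m)) ∧
      ∀ b : ι → K, MvPolynomial.eval b G = f (MvPolynomial.eval (fun i => algebraMap K Kb (b i)) z) := by
  classical
  refine ⟨∑ m ∈ z.support, MvPolynomial.monomial m (f (z.coeff m)), ?_, ?_⟩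
  · intro m
    rw [MvPolynomial.coeff_sum]
    simp only [MvPolynomial.coeff_monomial]
    rw [Finset.sum_ite_eq']
    split_ifs with h
    · rfl
    · rw [MvPolynomial.notMem_support_iff.mp h, map_zero]
  · intro b
    rw [map_sum]
    conv_rhs => rw [MvPolynomial.as_sum z]
    rw [map_sum, map_sum]
    apply Finset.sum_congr rfl
    intro m _
    rw [MvPolynomial.eval_monomial, MvPolynomial.eval_monomial]
    have : (m.prod fun n e => (algebraMap K Kb (b n)) ^ e) = algebraMap K Kb (m.prod fun n e => (b n) ^ e) := by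
      rw [Finsupp.prod, Finsupp.prod, map_prod]
      simp only [map_pow]
    rw [this, mul_comm (z.coeff m), ← Algebra.smul_def, map_smul, smul_eq_mul, mul_comm]

theorem avoid1 (z : MvPolynomial ι Kb) (hz : z ≠ 0) :
    ∃ G : MvPolynomial ι K, G ≠ 0 ∧ ∀ b : ι → K, MvPolynomial.eval b G ≠ 0 →
      MvPolynomial.eval (fun i => algebraMap K Kb (b i)) z ≠ 0 := by
  obtain ⟨m, hm⟩ := MvPolynomial.ne_zero_iff.mp hz
  obtain ⟨f, hf, -⟩ := Submodule.exists_le_ker_of_notMem (K := K) (p := (⊥ : Submodule K Kb))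
    (v := z.coeff m) (by rwa [Submodule.mem_bot])
  obtain ⟨G, hG1, hG2⟩ := lam f z
  refine ⟨G, ?_, ?_⟩
  · intro h0
    apply hf
    rw [← hG1, h0, MvPolynomial.coeff_zero]
  · intro b hb h0
    apply hb
    rw [hG2, h0, map_zero]

theorem avoid2 (z : MvPolynomial ι Kb) (hz : z ∉ (MvPolynomial.map (algebraMap K Kb)).range) :
    ∃ G : MvPolynomial ι K, G ≠ 0 ∧ ∀ b : ι → K, MvPolynomial.eval b G ≠ 0 →
      MvPolynomial.eval (fun i => algebraMap K Kb (b i)) z ∉ (algebraMap K Kb).range := by
  classical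
  have h1 : ∃ m, z.coeff m ∉ (algebraMap K Kb).range := by
    by_contra hcon
    push Not at hcon
    apply hz
    choose d hd using hcon
    refine ⟨∑ m ∈ z.support, MvPolynomial.monomial m (d m), ?_⟩
    rw [map_sum]
    conv_rhs => rw [MvPolynomial.as_sum z]
    apply Finset.sum_congr rfl
    intro m _
    rw [MvPolynomial.map_monomial, hd]
  obtain ⟨m, hm⟩ := h1
  obtain ⟨f, hf, hf1⟩ := Submodule.exists_le_ker_of_notMem (K := K)
    (p := Submodule.span K {(1 : Kb)}) (v := z.coeff m) (by
      intro h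
      apply hm
      rw [Submodule.mem_span_singleton] at h
      obtain ⟨a, ha⟩ := h
      exact ⟨a, by rw [← ha, Algebra.smul_def, mul_one]⟩)
  have hfK : ∀ k : K, f (algebraMap K Kb k) = 0 := by
    intro k
    have : algebraMap K Kb k ∈ Submodule.span K {(1 : Kb)} := by
      rw [Submodule.mem_span_singleton]
      exact ⟨k, by rw [Algebra.smul_def, mul_one]⟩
    exact hf1 this
  obtain ⟨G, hG1, hG2⟩ := lam f z
  refine ⟨G, ?_, ?_⟩
  · intro h0
    apply hf
    rw [← hG1, h0, MvPolynomial.coeff_zero]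
  · rintro b hb ⟨k, hk⟩
    apply hb
    rw [hG2, ← hk, hfK]

end lam

/-- Bezout relation for a polynomial which is separable over the fraction field -/
theorem sep_bezout {A : Type} [CommRing A] [IsDomain A] (h : A[X])
    (hs : (h.map (algebraMap A (FractionRing A))).Separable) :
    ∃ r : A, r ≠ 0 ∧ ∃ u w : A[X], u * h + w * derivative h = C r := by
  obtain ⟨u, w, huw⟩ := hs
  obtain ⟨b1, hb1, e1⟩ := IsLocalization.integerNormalization_spec (nonZeroDivisors A) u
  obtain ⟨b2, hb2, e2⟩ := IsLocalization.integerNormalization_spec (nonZeroDivisors A) w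
  set u' := IsLocalization.integerNormalization (nonZeroDivisors A) u
  set w' := IsLocalization.integerNormalization (nonZeroDivisors A) w
  refine ⟨b1 * b2, nonZeroDivisors.ne_zero (mul_mem hb1 hb2), C b2 * u', C b1 * w', ?_⟩
  apply map_injective (algebraMap A (FractionRing A)) (IsFractionRing.injective A (FractionRing A))
  simp only [Polynomial.map_add, Polynomial.map_mul, map_C, e1, e2, ← derivative_map]
  have s1 : b1 • u = C (algebraMap A (FractionRing A) b1) * u := by
    rw [← algebraMap_smul (FractionRing A) b1 u, smul_eq_C_mul]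
  have s2 : b2 • w = C (algebraMap A (FractionRing A) b2) * w := by
    rw [← algebraMap_smul (FractionRing A) b2 w, smul_eq_C_mul]
  rw [s1, s2, map_mul, C_mul]
  calc _ = C (algebraMap A (FractionRing A) b1) * C (algebraMap A (FractionRing A) b2) *
      (u * map (algebraMap A (FractionRing A)) h + w * derivative (map (algebraMap A (FractionRing A)) h)) := by ring
    _ = _ := by rw [huw, mul_one]

theorem sep_map {A K : Type} [CommRing A] [Field K] (h u w : A[X]) (r : A)
    (e : u * h + w * derivative h = C r) (φ : A →+* K) (hφ : φ r ≠ 0) :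
    (h.map φ).Separable := by
  refine ⟨C (φ r)⁻¹ * u.map φ, C (φ r)⁻¹ * w.map φ, ?_⟩
  have := congrArg (Polynomial.map φ) e
  rw [Polynomial.map_add, Polynomial.map_mul, Polynomial.map_mul, map_C, ← derivative_map] at this
  calc _ = C (φ r)⁻¹ * (u.map φ * h.map φ + w.map φ * derivative (h.map φ)) := by ring
    _ = 1 := by rw [this, ← C_mul, inv_mul_cancel₀ hφ, C_1]

theorem exists_eval_ne {K ι : Type} [Field K] [Infinite K] (g : MvPolynomial ι K) (hg : g ≠ 0) :
    ∃ a : ι → K, MvPolynomial.eval a g ≠ 0 := by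
  by_contra hcon
  push Not at hcon
  apply hg
  apply MvPolynomial.funext
  intro x
  rw [hcon, map_zero]

end Pool.Agent.H298R2.Kuyk
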