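import Mathlib
import Pool.Agent.H298R2.Kuyk2

/-! Kuyk's theorem, part 3: a generic line preserves irreducibility. -/

set_option autoImplicit false

namespace Pool.Agent.H298R2.Kuyk

open Polynomial

section line

variable {K ι A : Type} [Field K] [CommRing A]

/-- the substitution `x_i = a_i + b_i t` -/
noncomputable def line (φ : K →+* A) (a b : ι → A) : MvPolynomial ι K →+* A[X] :=
  MvPolynomial.eval₂Hom (C.comp φ) fun i => C (a i) + C (b i) * X

theorem line_C (φ : K →+* A) (a b : ι → A) (k : K) :
    line φ a b (MvPolynomial.C k) = C (φ k) := by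
  simp [line]

theorem line_X (φ : K →+* A) (a b : ι → A) (i : ι) :
    line φ a b (MvPolynomial.X i) = C (a i) + C (b i) * X := by
  simp [line]

end line

section ps

variable {A B : Type} [CommRing A] [CommRing B]

/-- polynomials to power series -/
noncomputable def toPS (φ : A →+* B) : A[X] →+* PowerSeries B :=
  (Polynomial.coeToPowerSeries.ringHom (R := B)).comp (mapRingHom φ)

theorem coeff_toPS (φ : A →+* B) (q : A[X]) (j : ℕ) :
    PowerSeries.coeff j (toPS φ q) = φ (q.coeff j) := by
  simp [toPS]

theorem toPS_C (φ : A →+* B) (a : A) : toPS φ (C a) = PowerSeries.C (φ a) := by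
  simp [toPS]

theorem toPS_X (φ : A →+* B) : toPS φ X = PowerSeries.X := by
  simp [toPS]

theorem toPS_injective (φ : A →+* B) (hφ : Function.Injective φ) :
    Function.Injective (toPS φ) := by
  intro p q hpq
  ext j
  apply hφ
  rw [← coeff_toPS, ← coeff_toPS, hpq]

theorem constantCoeff_toPS (φ : A →+* B) (q : A[X]) :
    PowerSeries.constantCoeff (toPS φ q) = φ (q.coeff 0) := by
  rw [← coeff_toPS, PowerSeries.coeff_zero_eq_constantCoeff]

theorem toPS_lift (φ : A →+* B) (p : PowerSeries B) (D : ℕ)
    (h1 : ∀ j, D < j → PowerSeries.coeff j p = 0)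
    (h2 : ∀ j, PowerSeries.coeff j p ∈ φ.range) : ∃ q : A[X], toPS φ q = p := by
  classical
  choose d hd using h2
  refine ⟨∑ j ∈ Finset.range (D + 1), monomial j (d j), ?_⟩
  ext1 j
  rw [coeff_toPS, finsetSum_coeff]
  simp only [coeff_monomial]
  rw [Finset.sum_ite_eq']
  split_ifs with h
  · exact hd j
  · rw [map_zero]
    symm
    apply h1
    rw [Finset.mem_range] at h
    omega

end ps

theorem line_lemma {K Kb ι : Type} [Field K] [Field Kb] [Algebra K Kb] [IsAlgClosed Kb]
    [Finite ι] [Infinite K]
    (h : (MvPolynomial ι K)[X]) (hm : h.Monic) (hi : Irreducible h) (a : ι → K)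
    (ha : (h.map (MvPolynomial.eval a)).Separable) :
    ∃ G : MvPolynomial ι K, G ≠ 0 ∧ ∀ b : ι → K, MvPolynomial.eval b G ≠ 0 →
      Irreducible (h.map (line (RingHom.id K) a b)) := by
  classical
  -- generic line
  let gl0 : MvPolynomial ι K →+* (MvPolynomial ι K)[X] :=
    line MvPolynomial.C (fun i => MvPolynomial.C (a i)) MvPolynomial.X
  let co : (MvPolynomial ι K)[X] →+* PowerSeries (MvPolynomial ι Kb) :=
    toPS (MvPolynomial.map (algebraMap K Kb))
  have hco : Function.Injective co :=
    toPS_injective _ (MvPolynomial.map_injective _ (algebraMap K Kb).injective)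
  let H0 : (MvPolynomial ι K)[X][X] := h.map gl0
  have hH0m : H0.Monic := hm.map _
  let H : (PowerSeries (MvPolynomial ι Kb))[X] := H0.map co
  have hHm : H.Monic := hH0m.map _
  -- reduction at t = 0
  let ha' : Kb[X] := (h.map (MvPolynomial.eval a)).map (algebraMap K Kb)
  have ha'm : ha'.Monic := (hm.map _).map _
  have ha's : ha'.Separable := ha.map
  let s0 : Finset Kb := ha'.roots.toFinset
  have hs0 : ha' = ∏ c ∈ s0, (X - C c) := by
    have h1 := (IsAlgClosed.splits ha').eq_prod_roots_of_monic ha'm
    have h2 : ha'.roots.Nodup := nodup_roots ha's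
    rw [h1]
    have h3 : s0.val = ha'.roots := by
      simp only [s0, Multiset.toFinset_val]
      exact h2.dedup
    rw [← h3]
    rfl
  have hs0c : s0.card = h.natDegree := by
    have := congrArg natDegree hs0
    rw [natDegree_prod_of_monic _ _ (fun c _ => monic_X_sub_C _)] at this
    simp only [natDegree_X_sub_C, Finset.sum_const, smul_eq_mul, mul_one] at this
    rw [← this]
    simp only [ha']
    rw [(hm.map _).natDegree_map, hm.natDegree_map]
  let s : Finset (MvPolynomial ι Kb) := s0.map ⟨MvPolynomial.C, MvPolynomial.C_injective ι Kb⟩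
  have hscard : s.card = h.natDegree := by rw [Finset.card_map, hs0c]
  have hHs : H.map PowerSeries.constantCoeff = ∏ c ∈ s, (X - C c) := by
    have e1 : ((PowerSeries.constantCoeff (R := MvPolynomial ι Kb)).comp co).comp gl0 =
        (MvPolynomial.C.comp (algebraMap K Kb)).comp (MvPolynomial.eval a) := by
      apply MvPolynomial.ringHom_ext
      · intro k
        simp [gl0, co, line_C, constantCoeff_toPS]
      · intro i
        simp [gl0, co, line_X, constantCoeff_toPS]
    have e2 : H.map PowerSeries.constantCoeff = ha'.map MvPolynomial.C := by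
      simp only [H, H0, ha']
      rw [map_map, map_map, map_map, map_map, e1]
    rw [e2, hs0, Polynomial.map_prod]
    simp only [s, Finset.prod_map, Polynomial.map_sub, map_X, map_C]
    rfl
  obtain ⟨y, hy1, hy2⟩ := hensel_split H hHm s hHs (by
    intro c hc c' hc' hne
    simp only [s, Finset.mem_map, Function.Embedding.coeFn_mk] at hc hc'
    obtain ⟨d, hd, rfl⟩ := hc
    obtain ⟨d', hd', rfl⟩ := hc'
    rw [← map_sub]
    apply IsUnit.map
    rw [isUnit_iff_ne_zero, sub_ne_zero]
    rintro rfl
    exact hne rfl)
  -- degree bound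
  let D := (Bivariate.swap H0).natDegree
  have hD : ∀ i j, D < j → (H0.coeff i).coeff j = 0 := by
    intro i j hj
    rw [← coeff_swap, coeff_eq_zero_of_natDegree_lt hj, coeff_zero]
  -- the bad subsets
  have hbad : ∀ J : Finset (MvPolynomial ι Kb), J ⊆ s → J ≠ ∅ → J ≠ s →
      ∃ G : MvPolynomial ι K, G ≠ 0 ∧
      ∀ b : ι → K, MvPolynomial.eval b G ≠ 0 →
      ¬ ∃ p : K[X][X], (∀ i j, D < j → (p.coeff i).coeff j = 0) ∧
        p.map (toPS (algebraMap K Kb))
        = ∏ c ∈ J, (X - C (PowerSeries.map
            (MvPolynomial.eval fun i => algebraMap K Kb (b i)) (y c))) := by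
    intro J hJs hJ0 hJ1
    let PJ : (PowerSeries (MvPolynomial ι Kb))[X] := ∏ c ∈ J, (X - C (y c))
    have hPJm : PJ.Monic := monic_prod_of_monic _ _ fun c _ => monic_X_sub_C _
    have hPJd : PJ.natDegree = J.card := by
      simp only [PJ]
      rw [natDegree_prod_of_monic _ _ (fun c _ => monic_X_sub_C _)]
      simp
    have hPJb : ∀ b : ι → K, PJ.map (PowerSeries.map
        (MvPolynomial.eval fun i => algebraMap K Kb (b i))) = ∏ c ∈ J, (X - C (PowerSeries.map
            (MvPolynomial.eval fun i => algebraMap K Kb (b i)) (y c))) := by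
      intro b
      simp only [PJ, Polynomial.map_prod, Polynomial.map_sub, map_X, map_C]
    have hclaim : ∃ i d, (D < d ∧ PowerSeries.coeff d (PJ.coeff i) ≠ 0) ∨
        PowerSeries.coeff d (PJ.coeff i) ∉ (MvPolynomial.map (σ := ι) (algebraMap K Kb)).range := by
      by_contra hcon
      push Not at hcon
      -- PJ comes from a polynomial
      have hlift : PJ ∈ Polynomial.lifts co := by
        rw [lifts_iff_coeff_lifts]
        intro i
        obtain ⟨q, hq⟩ := toPS_lift (MvPolynomial.map (σ := ι) (algebraMap K Kb)) (PJ.coeff i) D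
          (fun j hj => (hcon i j).1 hj) (fun j => (hcon i j).2)
        exact ⟨q, hq⟩
      obtain ⟨P, hP⟩ := (mem_lifts PJ).mp hlift
      have hPm : P.Monic := by
        apply monic_of_injective hco
        rw [hP]; exact hPJm
      have hPd : P ∣ H0 := by
        rw [← map_dvd_map co hco hPm, hP]
        change PJ ∣ H
        rw [hy2]
        exact Finset.prod_dvd_prod_of_subset _ _ _ hJs
      -- substitution
      let χ : (MvPolynomial ι K)[X] →+* MvPolynomial ι K :=
        eval₂RingHom (MvPolynomial.eval₂Hom MvPolynomial.C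
          fun i => MvPolynomial.X i - MvPolynomial.C (a i)) 1
      have hχ : χ.comp gl0 = RingHom.id _ := by
        apply MvPolynomial.ringHom_ext
        · intro k
          simp [χ, gl0, line_C]
        · intro i
          simp [χ, gl0, line_X]
      have hPχ : P.map χ ∣ h := by
        have := Polynomial.map_dvd χ hPd
        simp only [H0] at this
        rwa [map_map, hχ, Polynomial.map_id] at this
      have hdeg : (P.map χ).natDegree = J.card := by
        rw [hPm.natDegree_map, ← hPJd, ← hP, hPm.natDegree_map]
      have hJc : 0 < J.card := Finset.card_pos.mpr (Finset.nonempty_iff_ne_empty.mpr hJ0)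
      have hJc' : J.card < h.natDegree := by
        rw [← hscard]
        exact Finset.card_lt_card (lt_of_le_of_ne hJs hJ1)
      obtain ⟨q, hq⟩ := hPχ
      have hPχm : (P.map χ).Monic := hPm.map _
      have hqm : q.Monic := by
        have h1 := hm
        rw [hq] at h1
        exact hPχm.of_mul_monic_left h1
      have hdq : h.natDegree = (P.map χ).natDegree + q.natDegree := by
        rw [hq, hPχm.natDegree_mul hqm]
      rcases hi.isUnit_or_isUnit hq with hu | hu
      · have := hPχm.eq_one_of_isUnit hu
        rw [this, natDegree_one] at hdeg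
        omega
      · have := hqm.eq_one_of_isUnit hu
        rw [this, natDegree_one] at hdq
        omega
    obtain ⟨i, d, hid⟩ := hclaim
    rcases hid with ⟨hd, hne⟩ | hne
    · obtain ⟨G, hG0, hG⟩ := avoid1 (K := K) _ hne
      refine ⟨G, hG0, ?_⟩
      rintro b hb ⟨p, hp1, hp2⟩
      apply hG b hb
      have h1 := congrArg (fun q => PowerSeries.coeff d (q.coeff i)) hp2
      simp only [← hPJb, coeff_map, PowerSeries.coeff_map, coeff_toPS] at h1
      rw [← h1, hp1 i d hd, map_zero]
    · obtain ⟨G, hG0, hG⟩ := avoid2 (K := K) _ hne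
      refine ⟨G, hG0, ?_⟩
      rintro b hb ⟨p, hp1, hp2⟩
      apply hG b hb
      have h1 := congrArg (fun q => PowerSeries.coeff d (q.coeff i)) hp2
      simp only [← hPJb, coeff_map, PowerSeries.coeff_map, coeff_toPS] at h1
      rw [← h1]
      exact ⟨_, rfl⟩
  -- choose G
  choose! G hG0 hG using hbad
  refine ⟨∏ J ∈ (s.powerset.erase ∅).erase s, G J, ?_, ?_⟩
  · rw [Finset.prod_ne_zero_iff]
    intro J hJ
    rw [Finset.mem_erase, Finset.mem_erase, Finset.mem_powerset] at hJ
    exact hG0 J hJ.2.2 hJ.2.1 hJ.1
  · intro b hb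
    have hb' : ∀ J, J ⊆ s → J ≠ ∅ → J ≠ s → MvPolynomial.eval b (G J) ≠ 0 := by
      intro J h1 h2 h3
      rw [map_prod, Finset.prod_ne_zero_iff] at hb
      apply hb
      rw [Finset.mem_erase, Finset.mem_erase, Finset.mem_powerset]
      exact ⟨h3, h2, h1⟩
    have hHbm : (h.map (line (RingHom.id K) a b)).Monic := hm.map _
    have hHbe : (h.map (line (RingHom.id K) a b)) = H0.map (mapRingHom (MvPolynomial.eval b)) := by
      simp only [H0]
      rw [map_map]
      congr 1
      apply MvPolynomial.ringHom_ext
      · intro k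
        simp [gl0, line_C]
      · intro i
        simp [gl0, line_X]
    have hHbD : ∀ i j, D < j → ((h.map (line (RingHom.id K) a b)).coeff i).coeff j = 0 := by
      intro i j hj
      rw [hHbe, coeff_map, coe_mapRingHom, coeff_map, hD i j hj, map_zero]
    have hpos : 0 < h.natDegree := by
      rw [Nat.pos_iff_ne_zero]
      intro h0
      apply hi.not_isUnit
      rw [hm.natDegree_eq_zero.mp h0]
      exact isUnit_one
    let ev : MvPolynomial ι Kb →+* Kb := MvPolynomial.eval fun i => algebraMap K Kb (b i)
    have hHb : (h.map (line (RingHom.id K) a b)).map (toPS (algebraMap K Kb)) =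
        ∏ c ∈ s, (X - C (PowerSeries.map ev (y c))) := by
      have e3 : H.map (PowerSeries.map ev) = ∏ c ∈ s, (X - C (PowerSeries.map ev (y c))) := by
        rw [hy2]
        simp only [Polynomial.map_prod, Polynomial.map_sub, map_X, map_C]
      rw [← e3, hHbe]
      simp only [H]
      rw [map_map, map_map]
      have e4 : (algebraMap K Kb).comp (MvPolynomial.eval b) =
          ev.comp (MvPolynomial.map (algebraMap K Kb)) := by
        apply MvPolynomial.ringHom_ext
        · intro k
          simp [ev]
        · intro i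
          simp [ev]
      have e5 : (toPS (algebraMap K Kb)).comp (mapRingHom (MvPolynomial.eval b)) =
          (PowerSeries.map ev).comp co := by
        apply RingHom.ext
        intro q
        ext j
        simp only [RingHom.comp_apply, co, coeff_toPS, coe_mapRingHom, coeff_map,
          PowerSeries.coeff_map]
        exact congrArg (fun f : MvPolynomial ι K →+* Kb => f (q.coeff j)) e4
      rw [e5, ← map_map, ← map_map]
    have hinj : Set.InjOn (fun c => PowerSeries.map ev (y c)) s := by
      intro c hc c' hc' he
      have h1 := congrArg PowerSeries.constantCoeff he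
      simp only [← PowerSeries.coeff_zero_eq_constantCoeff_apply, PowerSeries.coeff_map] at h1
      simp only [PowerSeries.coeff_zero_eq_constantCoeff_apply, hy1 c hc, hy1 c' hc'] at h1
      have hc1 : c ∈ s := hc
      have hc1' : c' ∈ s := hc'
      simp only [s, Finset.mem_map, Function.Embedding.coeFn_mk] at hc1 hc1'
      obtain ⟨d, hd, rfl⟩ := hc1
      obtain ⟨d', hd', rfl⟩ := hc1'
      simp only [ev, MvPolynomial.eval_C] at h1
      rw [h1]
    rw [hHbm.irreducible_iff_natDegree]
    refine ⟨?_, ?_⟩
    · intro h1
      have h2 : (h.map (line (RingHom.id K) a b)).natDegree = 0 := by rw [h1, natDegree_one]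
      rw [hm.natDegree_map] at h2
      omega
    · intro p q hp hq hpq
      have hpd : p ∣ h.map (line (RingHom.id K) a b) := ⟨q, hpq.symm⟩
      have hpD := inner_degree_le p _ hHbm.ne_zero hpd D hHbD
      have hp2 : p.map (toPS (algebraMap K Kb)) ∣ ∏ c ∈ s, (X - C (PowerSeries.map ev (y c))) := by
        rw [← hHb]
        exact Polynomial.map_dvd _ hpd
      obtain ⟨J, hJs, hJ⟩ := dvd_prod_split s _ hinj _ (hp.map _) hp2
      have hpJ : p.natDegree = J.card := by
        rw [← hp.natDegree_map (toPS (algebraMap K Kb)), hJ,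
          natDegree_prod_of_monic _ _ (fun c _ => monic_X_sub_C _)]
        simp
      by_cases hJ0 : J = ∅
      · left
        rw [hpJ, hJ0, Finset.card_empty]
      by_cases hJ1 : J = s
      · right
        have h3 : h.natDegree = p.natDegree + q.natDegree := by
          rw [← hp.natDegree_mul hq, hpq, hm.natDegree_map]
        rw [hpJ, hJ1, hscard] at h3
        omega
      exact absurd ⟨p, hpD, hJ⟩ (hG J hJs hJ0 hJ1 b (hb' J hJs hJ0 hJ1))

end Pool.Agent.H298R2.Kuyk
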