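import Mathlib
import Pool.Agent.H298R2.Kuyk3
import Pool.Agent.H391R2.T4.Blueprint

/-! Kuyk's theorem, part 4: Hilbert irreducibility in several variables. -/

set_option autoImplicit false

namespace Pool.Agent.H298R2.Kuyk

open Polynomial
open Pool.Agent.H391R2.T4 (HilbField)

theorem monic_irreducible_separable {A : Type} [CommRing A] [IsDomain A] [IsIntegrallyClosed A]
    [CharZero A] (h : A[X]) (hm : h.Monic) (hi : Irreducible h) :
    (h.map (algebraMap A (FractionRing A))).Separable :=
  ((hm.irreducible_iff_irreducible_map_fraction_map (K := FractionRing A)).mp hi).separable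

theorem hilbMv {K : Type} [Field K] [CharZero K] (hK : HilbField K) {ι : Type} [Finite ι]
    (h : (MvPolynomial ι K)[X]) (hm : h.Monic) (hi : Irreducible h)
    (g : MvPolynomial ι K) (hg : g ≠ 0) :
    ∃ a : ι → K, MvPolynomial.eval a g ≠ 0 ∧ Irreducible (h.map (MvPolynomial.eval a)) := by
  obtain ⟨r, hr0, u, w, huw⟩ := sep_bezout h (monic_irreducible_separable h hm hi)
  obtain ⟨a, ha⟩ := exists_eval_ne (g * r) (mul_ne_zero hg hr0)
  rw [map_mul] at ha
  have ha1 := left_ne_zero_of_mul ha
  have ha2 := right_ne_zero_of_mul ha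
  obtain ⟨G, hG0, hG⟩ := line_lemma (Kb := AlgebraicClosure K) h hm hi a
    (sep_map h u w r huw (MvPolynomial.eval a) ha2)
  obtain ⟨b, hb⟩ := exists_eval_ne G hG0
  have hirr := hG b hb
  have hc : ∀ x : K, (evalRingHom x).comp (line (RingHom.id K) a b) =
      MvPolynomial.eval fun i => a i + b i * x := by
    intro x
    apply MvPolynomial.ringHom_ext
    · intro k
      simp [line_C]
    · intro i
      simp [line_X]
  have hLg : line (RingHom.id K) a b g ≠ 0 := by
    intro h0
    apply ha1
    have h1 := congrArg (fun f : MvPolynomial ι K →+* K => f g) (hc 0)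
    simp only [RingHom.comp_apply, h0, map_zero, mul_zero, add_zero] at h1
    exact h1.symm
  obtain ⟨x, hx1, hx2⟩ := hK _ (hm.map _) hirr (monic_irreducible_separable _ (hm.map _) hirr) _ hLg
  refine ⟨fun i => a i + b i * x, ?_, ?_⟩
  · rw [← hc]
    exact hx1
  · rw [map_map, hc] at hx2
    exact hx2

end Pool.Agent.H298R2.Kuyk
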