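import Mathlib
import Pool.Agent.H298R2.Kuyk4
import Pool.Agent.H33R2.V4

/-! Kuyk's theorem, part 5: specialisation of a Galois extension of `K(x_i)`. -/

set_option autoImplicit false

namespace Pool.Agent.H298R2.Kuyk

open Polynomial
open Pool.Agent.H391R2.T4 (HilbField)

theorem exists_galois {Q F : Type} [Field Q] [Field F] [CharZero Q] [Algebra Q F] [IsAlgClosed F]
    (S : Set F) (hSf : S.Finite) (hS : ∀ x ∈ S, IsIntegral Q x) :
    ∃ E : IntermediateField Q F, FiniteDimensional Q E ∧ IsGalois Q E ∧ S ⊆ E := by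
  have : Finite S := hSf
  let E0 : IntermediateField Q F := IntermediateField.adjoin Q S
  have hfd : FiniteDimensional Q E0 := IntermediateField.finiteDimensional_adjoin hS
  let E : IntermediateField Q F := IntermediateField.normalClosure Q E0 F
  have hfd' : FiniteDimensional Q E := normalClosure.is_finiteDimensional Q E0 F
  have hnc : IsNormalClosure Q E0 E :=
    Algebra.IsAlgebraic.isNormalClosure_normalClosure fun x => IsAlgClosed.splits _
  have hn : Normal Q E := hnc.normal
  refine ⟨E, hfd', ⟨⟩, ?_⟩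
  exact (IntermediateField.subset_adjoin Q S).trans (IntermediateField.le_normalClosure E0)

theorem exists_prim (R Q E : Type) [CommRing R] [IsDomain R] [Field Q] [CharZero Q] [Field E]
    [Algebra R Q] [IsFractionRing R Q] [Algebra Q E] [Algebra R E] [IsScalarTower R Q E]
    [FiniteDimensional Q E] :
    ∃ y : E, IntermediateField.adjoin Q {y} = ⊤ ∧ IsIntegral R y := by
  obtain ⟨y, hy⟩ := Field.exists_primitive_element Q E
  have halg : IsAlgebraic R y := by
    rw [IsFractionRing.isAlgebraic_iff R Q E]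
    exact Algebra.IsAlgebraic.isAlgebraic y
  obtain ⟨r, hr0, hr⟩ := halg.exists_integral_multiple
  refine ⟨r • y, ?_, hr⟩
  have hr1 : algebraMap R Q r ≠ 0 := by
    rw [Ne, IsFractionRing.to_map_eq_zero_iff]
    exact hr0
  have h1 : r • y = (algebraMap R Q r) • y := by rw [algebraMap_smul]
  rw [h1, eq_top_iff, ← hy, IntermediateField.adjoin_simple_le_iff]
  have h2 : (algebraMap R Q r) • y ∈ IntermediateField.adjoin Q {(algebraMap R Q r) • y} :=
    IntermediateField.mem_adjoin_simple_self _ _
  have h3 := IntermediateField.smul_mem _ h2 (x := (algebraMap R Q r)⁻¹)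
  rwa [smul_smul, inv_mul_cancel₀ hr1, one_smul] at h3

theorem spec_mv {K : Type} [Field K] [CharZero K] (hK : HilbField K) {ι : Type} [Finite ι]
    {Q E : Type} [Field Q] [Algebra (MvPolynomial ι K) Q] [IsFractionRing (MvPolynomial ι K) Q]
    [Field E] [Algebra Q E] [Algebra (MvPolynomial ι K) E]
    [IsScalarTower (MvPolynomial ι K) Q E] [FiniteDimensional Q E]
    [IsGalois Q E] (W : Finset E) (g : MvPolynomial ι K) (hg : g ≠ 0) :
    ∃ a : ι → K, MvPolynomial.eval a g ≠ 0 ∧
      ∃ (F' : Type) (_ : Field F') (_ : Algebra K F'), FiniteDimensional K F' ∧ IsGalois K F' ∧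
        ∃ (ψ : (E ≃ₐ[Q] E) ≃* (F' ≃ₐ[K] F')) (B : Subring E)
          (hR : ∀ r : MvPolynomial ι K, algebraMap (MvPolynomial ι K) E r ∈ B)
          (hB : ∀ (σ : E ≃ₐ[Q] E) (b : B), σ b ∈ B)
          (Φ : B →+* F'), (W : Set E) ⊆ B ∧
          (∀ r : MvPolynomial ι K, Φ ⟨algebraMap (MvPolynomial ι K) E r, hR r⟩ =
            algebraMap K F' (MvPolynomial.eval a r)) ∧
          (∀ (σ : E ≃ₐ[Q] E) (b : B), Φ ⟨σ b, hB σ b⟩ = ψ σ (Φ b)) := by
  classical
  have hcz : CharZero Q := charZero_of_injective_algebraMap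
    (IsFractionRing.injective (MvPolynomial ι K) Q)
  obtain ⟨y, hy, hyi⟩ := exists_prim (MvPolynomial ι K) Q E
  obtain ⟨S, hS⟩ := H33.spec_lemma (Q := Q) (E := E) y hy W
  have hden : ∀ q : Q, ∃ n d : MvPolynomial ι K, d ≠ 0 ∧
      q = algebraMap (MvPolynomial ι K) Q n / algebraMap (MvPolynomial ι K) Q d := by
    intro q
    obtain ⟨n, d, hd, hq⟩ := IsFractionRing.div_surjective (A := MvPolynomial ι K) q
    exact ⟨n, d, nonZeroDivisors.ne_zero hd, hq.symm⟩
  choose nu de hde hq using hden
  have hh := minpoly.isIntegrallyClosed_eq_field_fractions' (R := MvPolynomial ι K) Q hyi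
  obtain ⟨a, ha1, ha2⟩ := hilbMv hK (minpoly (MvPolynomial ι K) y) (minpoly.monic hyi)
    (minpoly.irreducible hyi) (g * ∏ q ∈ S, de q)
    (mul_ne_zero hg (Finset.prod_ne_zero_iff.mpr fun q _ => hde q))
  rw [map_mul, map_prod] at ha1
  refine ⟨a, left_ne_zero_of_mul ha1, ?_⟩
  have haD := Finset.prod_ne_zero_iff.mp (right_ne_zero_of_mul ha1)
  let M : Submonoid (MvPolynomial ι K) := (nonZeroDivisors K).comap (MvPolynomial.eval a)
  have hM : ∀ m : M, MvPolynomial.eval a (m : MvPolynomial ι K) ≠ 0 := fun m =>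
    nonZeroDivisors.ne_zero m.2
  have hM0 : ∀ m : M, (m : MvPolynomial ι K) ≠ 0 := by
    intro m h0
    apply hM m
    rw [h0, map_zero]
  have hMle : M ≤ nonZeroDivisors (MvPolynomial ι K) := fun m hm =>
    mem_nonZeroDivisors_of_ne_zero (hM0 ⟨m, hm⟩)
  let il : Localization M →+* Q := IsLocalization.lift (M := M)
    (g := algebraMap (MvPolynomial ι K) Q) (fun m => by
      rw [isUnit_iff_ne_zero, Ne, IsFractionRing.to_map_eq_zero_iff]
      exact hM0 m)
  let el : Localization M →+* K := IsLocalization.lift (M := M)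
    (g := MvPolynomial.eval a) (fun m => by
      rw [isUnit_iff_ne_zero]
      exact hM m)
  have hil : ∀ r, il (algebraMap _ _ r) = algebraMap (MvPolynomial ι K) Q r := fun r =>
    IsLocalization.lift_eq _ _
  have hel : ∀ r, el (algebraMap _ _ r) = MvPolynomial.eval a r := fun r =>
    IsLocalization.lift_eq _ _
  have hinj : Function.Injective il := by
    rw [IsLocalization.lift_injective_iff]
    intro x z
    constructor
    · intro h
      exact congrArg _ (IsLocalization.injective (Localization M) hMle h)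
    · intro h
      exact congrArg _ (IsFractionRing.injective (MvPolynomial ι K) Q h)
  let A : Subring Q := il.range
  let e : Localization M ≃+* A := RingEquiv.ofBijective il.rangeRestrict
    ⟨fun x z h => hinj (congrArg Subtype.val h), il.rangeRestrict_surjective⟩
  let φ : A →+* K := el.comp e.symm.toRingHom
  let jA : MvPolynomial ι K →+* A := e.toRingHom.comp (algebraMap _ _)
  have hjA : ∀ r, (jA r : Q) = algebraMap (MvPolynomial ι K) Q r := by
    intro r
    exact hil r
  have hφjA : ∀ r, φ (jA r) = MvPolynomial.eval a r := by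
    intro r
    change el (e.symm (e (algebraMap _ _ r))) = _
    rw [RingEquiv.symm_apply_apply, hel]
  have hSA : (S : Set Q) ⊆ A := by
    intro q hqS
    have h1 : de q ∈ M := by
      change MvPolynomial.eval a (de q) ∈ nonZeroDivisors K
      exact mem_nonZeroDivisors_of_ne_zero (haD q hqS)
    refine ⟨IsLocalization.mk' (Localization M) (nu q) ⟨de q, h1⟩, ?_⟩
    rw [IsLocalization.lift_mk'_spec]
    have h2 : algebraMap (MvPolynomial ι K) Q (de q) ≠ 0 := by
      rw [Ne, IsFractionRing.to_map_eq_zero_iff]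
      exact hde q
    have h3 := hq q
    rw [eq_div_iff h2] at h3
    rw [← h3, mul_comm]
  obtain ⟨F', i1, i2, i3, i4, ψ, B, hA, hB, Φ, -, hW, hΦ, hΦψ, -⟩ := hS A hSA K φ
    ((minpoly (MvPolynomial ι K) y).map jA) (by
      rw [hh, map_map]
      have : A.subtype.comp jA = algebraMap (MvPolynomial ι K) Q := RingHom.ext hjA
      rw [this]) (by
      rw [map_map]
      have : φ.comp jA = MvPolynomial.eval a := RingHom.ext hφjA
      rw [this]
      exact ha2)
  have hjE : ∀ r, algebraMap Q E (jA r) = algebraMap (MvPolynomial ι K) E r := by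
    intro r
    rw [hjA, ← IsScalarTower.algebraMap_apply]
  refine ⟨F', i1, i2, i3, i4, ψ, B, ?_, hB, Φ, hW, ?_, hΦψ⟩
  · intro r
    rw [← hjE]
    exact hA (jA r)
  · intro r
    rw [← hφjA, ← hΦ]
    congr 1
    apply Subtype.ext
    exact (hjE r).symm

end Pool.Agent.H298R2.Kuyk
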