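import Mathlib
import Pool.Agent.H298R2.Kuyk3

/-! Kuyk's theorem, part 6: power series facts. -/

set_option autoImplicit false

namespace Pool.Agent.H298R2.Kuyk

open Polynomial

section

variable {Kb : Type} [Field Kb]

instance : IsIntegrallyClosed (PowerSeries Kb)[X] := inferInstance

/-- `X ↦ X + c` into power series -/
noncomputable def sg (c : Kb) : Kb[X] →+* PowerSeries Kb :=
  (toPS (RingHom.id Kb)).comp (Polynomial.compRingHom (X + C c))

theorem sg_C (c k : Kb) : sg c (C k) = PowerSeries.C k := by
  simp [sg, toPS_C]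

theorem sg_X (c : Kb) : sg c X = PowerSeries.X + PowerSeries.C c := by
  simp [sg, toPS_C, toPS_X]

theorem sg_injective (c : Kb) : Function.Injective (sg c) := by
  intro p q hpq
  simp only [sg, RingHom.comp_apply] at hpq
  have h1 := toPS_injective _ (fun _ _ h => h) hpq
  simp only [Polynomial.coe_compRingHom_apply] at h1
  have h2 := congrArg (fun r : Kb[X] => r.comp (X - C c)) h1
  simp only [comp_assoc, add_comp, X_comp, C_comp, sub_add_cancel, comp_X] at h2
  exact h2

theorem sg_surj (c : Kb) (p : PowerSeries Kb) (D : ℕ)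
    (h : ∀ j, D < j → PowerSeries.coeff j p = 0) : ∃ q : Kb[X], sg c q = p := by
  obtain ⟨q, hq⟩ := toPS_lift (RingHom.id Kb) p D h (fun j => ⟨_, rfl⟩)
  refine ⟨q.comp (X - C c), ?_⟩
  simp only [sg, RingHom.comp_apply, Polynomial.coe_compRingHom_apply]
  rw [comp_assoc, sub_comp, X_comp, C_comp, add_sub_cancel_right, comp_X, hq]

/-- series in the first variable -/
noncomputable def i1 : PowerSeries Kb →+* PowerSeries (PowerSeries Kb) :=
  PowerSeries.map PowerSeries.C

/-- series in the second variable, polynomials in the first variable -/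
noncomputable def i2 : (PowerSeries Kb)[X] →+* PowerSeries (PowerSeries Kb) :=
  toPS (RingHom.id (PowerSeries Kb))

theorem i1_injective : Function.Injective (i1 (Kb := Kb)) := by
  intro p q h
  ext n
  have := congrArg (PowerSeries.coeff n) h
  simp only [i1, PowerSeries.coeff_map] at this
  exact PowerSeries.C_injective this

theorem i2_injective : Function.Injective (i2 (Kb := Kb)) :=
  toPS_injective _ fun _ _ h => h

theorem i1_C (k : Kb) : i1 (PowerSeries.C k) = PowerSeries.C (PowerSeries.C k) := by
  simp [i1]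

theorem i1_X : i1 (PowerSeries.X : PowerSeries Kb) = PowerSeries.X := by
  simp [i1]

theorem i2_C (p : PowerSeries Kb) : i2 (C p) = PowerSeries.C p := by
  simp [i2, toPS_C]

theorem i2_X : i2 (X : (PowerSeries Kb)[X]) = PowerSeries.X := by
  simp [i2, toPS_X]

theorem i1_i2 (p : PowerSeries Kb) (q : (PowerSeries Kb)[X]) (h : i1 p = i2 q) :
    ∀ j, q.natDegree < j → PowerSeries.coeff j p = 0 := by
  intro j hj
  have h1 := congrArg (PowerSeries.coeff j) h
  simp only [i1, i2, PowerSeries.coeff_map, coeff_toPS, RingHom.id_apply] at h1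
  rw [coeff_eq_zero_of_natDegree_lt hj] at h1
  apply PowerSeries.C_injective
  rw [h1, map_zero]

end

theorem mem_range_of_integral {D F : Type} [CommRing D] [IsDomain D] [IsIntegrallyClosed D]
    [Field F] (δ : D →+* F) (hδ : Function.Injective δ) (z : F)
    (hz : z ∈ Subfield.closure (Set.range δ)) (hi : δ.IsIntegralElem z) : z ∈ δ.range := by
  rw [Subfield.mem_closure_iff] at hz
  obtain ⟨a, ha, b, hb, rfl⟩ := hz
  have hcl : Subring.closure (Set.range δ) = δ.range := by
    rw [← RingHom.coe_range, Subring.closure_eq]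
  rw [hcl] at ha hb
  obtain ⟨a, rfl⟩ := ha
  obtain ⟨b, rfl⟩ := hb
  by_cases hb0 : b = 0
  · rw [hb0, map_zero, div_zero]
    exact Subring.zero_mem _
  let K := FractionRing D
  let θ : K →+* F := IsFractionRing.lift hδ
  have hθ : ∀ d : D, θ (algebraMap D K d) = δ d := fun d => IsFractionRing.lift_algebraMap hδ d
  have h1 : θ (algebraMap D K a / algebraMap D K b) = δ a / δ b := by
    rw [map_div₀, hθ, hθ]
  have h2 : IsIntegral D (algebraMap D K a / algebraMap D K b) := by
    obtain ⟨p, hp, hp0⟩ := hi
    refine ⟨p, hp, ?_⟩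
    apply θ.injective
    rw [map_zero, hom_eval₂, h1]
    have : θ.comp (algebraMap D K) = δ := RingHom.ext hθ
    rw [this]
    exact hp0
  obtain ⟨d, hd⟩ := IsIntegrallyClosed.isIntegral_iff.mp h2
  refine ⟨d, ?_⟩
  rw [← h1, ← hd, hθ]

theorem mem_adjoin_of_fixed {Q E : Type} [Field Q] [Field E] [Algebra Q E] [FiniteDimensional Q E]
    [IsGalois Q E] (T : Set E) (x : E)
    (hx : ∀ σ : E ≃ₐ[Q] E, (∀ t ∈ T, σ t = t) → σ x = x) : x ∈ IntermediateField.adjoin Q T := by
  rw [← IsGalois.fixedField_fixingSubgroup (IntermediateField.adjoin Q T)]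
  rw [IntermediateField.mem_fixedField_iff]
  intro σ hσ
  apply hx
  intro t ht
  rw [IntermediateField.mem_fixingSubgroup_iff] at hσ
  exact hσ t (IntermediateField.subset_adjoin Q T ht)

end Pool.Agent.H298R2.Kuyk
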