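import Mathlib
import Pool.Agent.H298R2.Kuyk5
import Pool.Agent.H298R2.Kuyk6

/-! Kuyk's theorem, part 7: the generic Galois extension. -/

set_option autoImplicit false

namespace Pool.Agent.H298R2.Kuyk

open Polynomial

section integral

variable {R F : Type} [CommRing R] [Field F] [Algebra R F]

theorem integral_root (q : F[X]) (hq : q.Monic) (hc : ∀ i, IsIntegral R (q.coeff i)) (z : F)
    (hz : q.eval z = 0) : IsIntegral R z := by
  have h1 : q ∈ Polynomial.lifts (algebraMap (integralClosure R F) F) := by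
    rw [lifts_iff_coeff_lifts]
    intro i
    exact ⟨⟨q.coeff i, hc i⟩, rfl⟩
  obtain ⟨p, hp, -, hpm⟩ := lifts_and_natDegree_eq_and_monic h1 hq
  have h2 : IsIntegral (integralClosure R F) z := by
    refine ⟨p, hpm, ?_⟩
    rw [← eval_map, hp, hz]
  exact isIntegral_trans z h2

theorem integral_prod {ι : Type} (J : Finset ι) (z : ι → F) (hz : ∀ d ∈ J, IsIntegral R (z d))
    (i : ℕ) : IsIntegral R ((∏ d ∈ J, (X - C (z d))).coeff i) := by
  have h1 : (∏ d ∈ J, (X - C (z d))) ∈ Polynomial.lifts (algebraMap (integralClosure R F) F) := by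
    rw [lifts_iff_liftsRing]
    refine Subring.prod_mem _ fun d hd => ?_
    exact Subring.sub_mem _ (X_mem_lifts _) (C'_mem_lifts ⟨⟨z d, hz d hd⟩, rfl⟩)
  rw [lifts_iff_coeff_lifts] at h1
  obtain ⟨w, hw⟩ := h1 i
  rw [← hw]
  exact w.2

theorem integral_poly {K : Type} [Field K] (θ : K[X] →+* F) (hC : ∀ k, IsIntegral R (θ (C k)))
    (hX : IsIntegral R (θ X)) (q : K[X]) : IsIntegral R (θ q) := by
  induction q using Polynomial.induction_on' with
  | add p q hp hq => rw [map_add]; exact hp.add hq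
  | monomial n k =>
    rw [← C_mul_X_pow_eq_monomial, map_mul, map_pow]
    exact (hC k).mul (hX.pow n)

end integral

theorem lifts2 {A B : Type} [CommRing A] [CommRing B] (e : A →+* B) (q : B[X][X])
    (h : ∀ i j, (q.coeff i).coeff j ∈ e.range) : ∃ p : A[X][X], p.map (mapRingHom e) = q := by
  have h1 : q ∈ Polynomial.lifts (mapRingHom e) := by
    rw [lifts_iff_coeff_lifts]
    intro i
    have h2 : q.coeff i ∈ Polynomial.lifts e := by
      rw [lifts_iff_coeff_lifts]
      intro j
      exact h i j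
    obtain ⟨r, hr⟩ := (mem_lifts _).mp h2
    exact ⟨r, hr⟩
  exact (mem_lifts _).mp h1

/-- elements algebraic over the small field come from the algebraically closed field -/
theorem mem_range_of_algebraic {K Kb F : Type} [Field K] [Field Kb] [IsAlgClosed Kb] [Field F]
    (a : K →+* Kb) (j : Kb →+* F) (z : F) (m : K[X]) (hm : m ≠ 0)
    (hz : m.eval₂ (j.comp a) z = 0) : z ∈ j.range := by
  have h1 : (m.map a).Splits := IsAlgClosed.splits _
  have h2 : m.map a ≠ 0 := by
    rw [Ne, Polynomial.map_eq_zero]; exact hm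
  apply h1.mem_range_of_isRoot h2
  rw [IsRoot, map_map, eval_map]
  exact hz

section coord

variable {K Kb : Type} [Field K] [Field Kb] [Algebra K Kb]

/-- coordinates: `u = T1 - w1 v`, `v = (T1 - T2)/(w1 - w2)` -/
noncomputable def eta (w1 w2 : Kb) : MvPolynomial (Fin 2) K →+* Kb[X][X] :=
  MvPolynomial.eval₂Hom ((C.comp C).comp (algebraMap K Kb))
    ![X - C (C w1) * (C (C (w1 - w2)⁻¹) * (X - C X)), C (C (w1 - w2)⁻¹) * (X - C X)]

theorem eta_C (w1 w2 : Kb) (k : K) :
    eta (K := K) w1 w2 (MvPolynomial.C k) = C (C (algebraMap K Kb k)) := by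
  simp [eta]

theorem eta_1 (w1 w2 : Kb) :
    eta (K := K) w1 w2 (MvPolynomial.X 0) + eta (K := K) w1 w2 (MvPolynomial.X 1) * C (C w1) = X := by
  simp only [eta, MvPolynomial.coe_eval₂Hom, MvPolynomial.eval₂_X, Matrix.cons_val_zero,
    Matrix.cons_val_one]
  ring

theorem eta_2 (w1 w2 : Kb) (hne : w1 ≠ w2) :
    eta (K := K) w1 w2 (MvPolynomial.X 0) + eta (K := K) w1 w2 (MvPolynomial.X 1) * C (C w2)
      = C X := by
  simp only [eta, MvPolynomial.coe_eval₂Hom, MvPolynomial.eval₂_X, Matrix.cons_val_zero,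
    Matrix.cons_val_one]
  have h1 : (C (C (w1 - w2)) : Kb[X][X]) * C (C (w1 - w2)⁻¹) = 1 := by
    rw [← C_mul, ← C_mul, mul_inv_cancel₀ (sub_ne_zero.mpr hne), C_1, C_1]
  have h2 : (C (C (w1 - w2)) : Kb[X][X]) = C (C w1) - C (C w2) := by
    rw [C_sub, C_sub]
  rw [h2] at h1
  linear_combination (C X - X) * h1

theorem eta_injective (w1 w2 : Kb) (hne : w1 ≠ w2) : Function.Injective (eta (K := K) w1 w2) := by
  let lam : Kb[X][X] →+* MvPolynomial (Fin 2) Kb :=
    eval₂RingHom (eval₂RingHom MvPolynomial.C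
      (MvPolynomial.X 0 + MvPolynomial.X 1 * MvPolynomial.C w2))
      (MvPolynomial.X 0 + MvPolynomial.X 1 * MvPolynomial.C w1)
  have h1 : (MvPolynomial.C (w1 - w2)⁻¹ : MvPolynomial (Fin 2) Kb) *
      MvPolynomial.C (w1 - w2) = 1 := by
    rw [← MvPolynomial.C_mul, inv_mul_cancel₀ (sub_ne_zero.mpr hne), MvPolynomial.C_1]
  rw [MvPolynomial.C_sub] at h1
  have h : lam.comp (eta (K := K) w1 w2) = MvPolynomial.map (algebraMap K Kb) := by
    apply MvPolynomial.ringHom_ext
    · intro k
      simp [lam, eta_C]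
    · intro i
      fin_cases i
      · simp [lam, eta]
        linear_combination (-MvPolynomial.C w1 * MvPolynomial.X 1) * h1
      · simp [lam, eta]
        linear_combination (MvPolynomial.X 1) * h1
  have h3 : Function.Injective (lam.comp (eta (K := K) w1 w2)) := by
    rw [h]
    exact MvPolynomial.map_injective _ (algebraMap K Kb).injective
  intro p q hpq
  apply h3
  simp only [RingHom.comp_apply, hpq]

/-- embedding of polynomials -/
noncomputable def psi (c : Kb) : Kb[X][X] →+* (PowerSeries Kb)[X] :=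
  (Polynomial.compRingHom (X + C (PowerSeries.C c))).comp (mapRingHom (sg c))

theorem psi_X (c : Kb) : psi c X = X + C (PowerSeries.C c) := by
  simp [psi]

theorem psi_C (c : Kb) (q : Kb[X]) : psi c (C q) = C (sg c q) := by
  simp [psi]

theorem psi_injective (c : Kb) : Function.Injective (psi c) := by
  intro p q hpq
  simp only [psi, RingHom.comp_apply, Polynomial.coe_compRingHom_apply] at hpq
  have h2 := congrArg (fun r : (PowerSeries Kb)[X] => r.comp (X - C (PowerSeries.C c))) hpq
  simp only [comp_assoc, add_comp, X_comp, C_comp, sub_add_cancel, comp_X] at h2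
  exact Polynomial.map_injective _ (sg_injective c) h2

end coord

end Pool.Agent.H298R2.Kuyk
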