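import Mathlib
import Pool.Agent.H298R2.Kuyk7

/-! Kuyk's theorem, part 8: the generic Galois extension. -/

set_option autoImplicit false

namespace Pool.Agent.H298R2.Kuyk

open Polynomial

/-- the field of rational functions in two variables -/
abbrev RQ (K : Type) [Field K] : Type := FractionRing (MvPolynomial (Fin 2) K)

theorem generic_core {K Kb F : Type} [Field K] [CharZero K] [Field Kb] [Algebra K Kb]
    [IsAlgClosed Kb] [Algebra.IsAlgebraic K Kb] [Field F] [IsAlgClosed F]
    (ε : PowerSeries (PowerSeries Kb) →+* F) (hε : Function.Injective ε)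
    (f : K[X][X]) (hfm : f.Monic) (c : K)
    (hc : (f.map (evalRingHom c)).Separable) (w1 w2 : Kb) (hne : w1 ≠ w2) :
    ∃ (E : Type) (_ : Field E) (_ : Algebra (RQ K) E) (_ : Algebra (MvPolynomial (Fin 2) K) E)
      (_ : IsScalarTower (MvPolynomial (Fin 2) K) (RQ K) E),
      FiniteDimensional (RQ K) E ∧ IsGalois (RQ K) E ∧
      ∃ (κ : K →+* E) (t : E → E) (x1 x2 : E) (s : Finset Kb) (y y' : Kb → E) (W : Finset E),
        (∀ k, κ k = algebraMap (MvPolynomial (Fin 2) K) E (MvPolynomial.C k)) ∧
        (∀ x, t x = algebraMap (MvPolynomial (Fin 2) K) E (MvPolynomial.X 0) +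
          algebraMap (MvPolynomial (Fin 2) K) E (MvPolynomial.X 1) * x) ∧
        (∀ m : K[X], aeval w1 m = 0 → m.eval₂ κ x1 = 0) ∧
        (∀ m : K[X], aeval w2 m = 0 → m.eval₂ κ x2 = 0) ∧ x1 ≠ x2 ∧
        f.map (eval₂RingHom κ (t x1)) = ∏ d ∈ s, (X - C (y d)) ∧
        f.map (eval₂RingHom κ (t x2)) = ∏ d ∈ s, (X - C (y' d)) ∧
        s.card = f.natDegree ∧ Set.InjOn y s ∧
        x1 ∈ W ∧ x2 ∈ W ∧ (∀ d ∈ s, y d ∈ W) ∧ (∀ d ∈ s, y' d ∈ W) ∧
        (∀ J : Finset Kb, J ⊆ s →
          (∀ i, ∀ σ : E ≃ₐ[RQ K] E, σ x2 = x2 → (∀ d ∈ s, σ (y' d) = y' d) →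
            σ ((∏ d ∈ J, (X - C (y d))).coeff i) = (∏ d ∈ J, (X - C (y d))).coeff i) →
          ∃ p : E[X][X], p.Monic ∧ (∀ i j, (p.coeff i).coeff j ∈ W) ∧
            (∀ i j, ∃ m : K[X], m ≠ 0 ∧ m.eval₂ κ ((p.coeff i).coeff j) = 0) ∧
            p.map (evalRingHom (t x1)) = ∏ d ∈ J, (X - C (y d)) ∧
            p ∣ f.map (mapRingHom κ)) ∧
        (∀ p : E[X], (∀ i, ∃ m : K[X], m ≠ 0 ∧ m.eval₂ κ (p.coeff i) = 0) →
          p.eval (t x1) = 0 → p = 0) := by
  classical
  set c' : Kb := algebraMap K Kb c with hc'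
  -- the ring homomorphisms
  let Θ : Kb[X][X] →+* F := (ε.comp i2).comp (psi c')
  have hi2 : Function.Injective (ε.comp (i2 (Kb := Kb))) := hε.comp i2_injective
  have hΘ : Function.Injective Θ := hi2.comp (psi_injective c')
  let ρ : MvPolynomial (Fin 2) K →+* F := Θ.comp (eta w1 w2)
  have hρ : Function.Injective ρ := hΘ.comp (eta_injective w1 w2 hne)
  let algRF : Algebra (MvPolynomial (Fin 2) K) F := ρ.toAlgebra
  have halgRF : ∀ r, algebraMap (MvPolynomial (Fin 2) K) F r = ρ r := fun _ => rfl
  have hFS : FaithfulSMul (MvPolynomial (Fin 2) K) F :=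
    (faithfulSMul_iff_algebraMap_injective _ _).mpr hρ
  let algQF : Algebra (RQ K) F := FractionRing.liftAlgebra (MvPolynomial (Fin 2) K) F
  have towF : IsScalarTower (MvPolynomial (Fin 2) K) (RQ K) F :=
    FractionRing.isScalarTower_liftAlgebra _ _
  let jK : Kb →+* F := Θ.comp (C.comp C)
  have hjK : ∀ k, jK k = ε (PowerSeries.C (PowerSeries.C k)) := by
    intro k
    simp only [jK, Θ, RingHom.comp_apply, psi_C, sg_C, i2_C]
  let κF : K →+* F := jK.comp (algebraMap K Kb)
  have hρC : ∀ k, ρ (MvPolynomial.C k) = κF k := by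
    intro k
    simp only [ρ, κF, jK, RingHom.comp_apply, eta_C]
  let t1 : F := Θ X
  let t2 : F := Θ (C X)
  have ht1 : ρ (MvPolynomial.X 0) + ρ (MvPolynomial.X 1) * jK w1 = t1 := by
    simp only [ρ, jK, t1, RingHom.comp_apply]
    rw [← map_mul, ← map_add, eta_1]
  have ht2 : ρ (MvPolynomial.X 0) + ρ (MvPolynomial.X 1) * jK w2 = t2 := by
    simp only [ρ, jK, t2, RingHom.comp_apply]
    rw [← map_mul, ← map_add, eta_2 _ _ hne]
  have ht1' : t1 = ε (i1 (sg c' X)) := by
    simp only [t1, Θ, RingHom.comp_apply, psi_X, sg_X, map_add, i1_X, i1_C, i2_X, i2_C]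
  have ht2' : t2 = ε (PowerSeries.C (sg c' X)) := by
    simp only [t2, Θ, RingHom.comp_apply, psi_C, i2_C]
  -- Hensel
  let ha' : Kb[X] := (f.map (evalRingHom c)).map (algebraMap K Kb)
  have ha'm : ha'.Monic := (hfm.map _).map _
  have ha's : ha'.Separable := hc.map
  let s : Finset Kb := ha'.roots.toFinset
  have hs0 : ha' = ∏ d ∈ s, (X - C d) := by
    have h1 := (IsAlgClosed.splits ha').eq_prod_roots_of_monic ha'm
    have h2 : ha'.roots.Nodup := nodup_roots ha's
    rw [h1]
    have h3 : s.val = ha'.roots := by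
      simp only [s, Multiset.toFinset_val]
      exact h2.dedup
    rw [← h3]
    rfl
  have hscard : s.card = f.natDegree := by
    have := congrArg natDegree hs0
    rw [natDegree_prod_of_monic _ _ (fun c _ => monic_X_sub_C _)] at this
    simp only [natDegree_X_sub_C, Finset.sum_const, smul_eq_mul, mul_one] at this
    rw [← this]
    simp only [ha']
    rw [(hfm.map _).natDegree_map, hfm.natDegree_map]
  let fb : Kb[X][X] := f.map (mapRingHom (algebraMap K Kb))
  let F1 : (PowerSeries Kb)[X] := fb.map (sg c')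
  have hF1m : F1.Monic := (hfm.map _).map _
  have hF1c : F1.map PowerSeries.constantCoeff = ∏ d ∈ s, (X - C d) := by
    rw [← hs0]
    simp only [F1, fb, ha']
    rw [map_map, map_map, map_map]
    congr 1
    apply Polynomial.ringHom_ext
    · intro k
      simp [sg_C]
    · simp [sg_X, hc']
  obtain ⟨y0, hy01, hy02⟩ := hensel_split F1 hF1m s hF1c (by
    intro d _ d' _ hdd
    rw [isUnit_iff_ne_zero, sub_ne_zero]
    exact hdd)
  -- the two factorisations in F
  have hf1 : f.map (eval₂RingHom κF t1) = ∏ d ∈ s, (X - C (ε (i1 (y0 d)))) := by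
    have e1 : eval₂RingHom κF t1 = ((ε.comp i1).comp (sg c')).comp (mapRingHom (algebraMap K Kb)) := by
      apply Polynomial.ringHom_ext
      · intro k
        simp only [coe_eval₂RingHom, eval₂_C, RingHom.comp_apply, coe_mapRingHom, map_C, sg_C,
          i1_C, κF, hjK]
      · simp only [coe_eval₂RingHom, eval₂_X, RingHom.comp_apply, coe_mapRingHom, map_X, ht1']
    rw [e1, ← map_map, ← map_map]
    change F1.map (ε.comp i1) = _
    rw [hy02]
    simp only [Polynomial.map_prod, Polynomial.map_sub, map_X, map_C, RingHom.comp_apply]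
  have hf2 : f.map (eval₂RingHom κF t2) = ∏ d ∈ s, (X - C (ε (PowerSeries.C (y0 d)))) := by
    have e1 : eval₂RingHom κF t2 =
        ((ε.comp PowerSeries.C).comp (sg c')).comp (mapRingHom (algebraMap K Kb)) := by
      apply Polynomial.ringHom_ext
      · intro k
        simp only [coe_eval₂RingHom, eval₂_C, RingHom.comp_apply, coe_mapRingHom, map_C, sg_C,
          κF, hjK]
      · simp only [coe_eval₂RingHom, eval₂_X, RingHom.comp_apply, coe_mapRingHom, map_X, ht2']
    rw [e1, ← map_map, ← map_map]
    change F1.map (ε.comp PowerSeries.C) = _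
    rw [hy02]
    simp only [Polynomial.map_prod, Polynomial.map_sub, map_X, map_C, RingHom.comp_apply]
  -- liftable subproducts
  let PJ0 : Finset Kb → (PowerSeries Kb)[X] := fun J => ∏ d ∈ J, (X - C (y0 d))
  have hpJex : ∀ J : Finset Kb, ∃ p : Kb[X][X], PJ0 J ∈ Polynomial.lifts (sg c') →
      p.map (sg c') = PJ0 J := by
    intro J
    by_cases h : PJ0 J ∈ Polynomial.lifts (sg c')
    · obtain ⟨p, hp⟩ := (mem_lifts _).mp h
      exact ⟨p, fun _ => hp⟩
    · exact ⟨0, fun h' => absurd h' h⟩
  choose pJ hpJ using hpJex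
  let CS : Finset Kb := {0, w1, w2} ∪
    s.powerset.biUnion fun J => (pJ J).support.biUnion fun i => ((pJ J).coeff i).coeffs
  have hCS : ∀ J, J ⊆ s → ∀ i j, ((pJ J).coeff i).coeff j ∈ CS := by
    intro J hJ i j
    by_cases h0 : ((pJ J).coeff i).coeff j = 0
    · rw [h0]
      exact Finset.mem_union_left _ (by simp)
    · apply Finset.mem_union_right
      rw [Finset.mem_biUnion]
      refine ⟨J, Finset.mem_powerset.mpr hJ, ?_⟩
      rw [Finset.mem_biUnion]
      refine ⟨i, ?_, ?_⟩
      · rw [mem_support_iff]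
        intro h1
        rw [h1, coeff_zero] at h0
        exact h0 rfl
      · rw [mem_coeffs_iff]
        exact ⟨j, mem_support_iff.mpr h0, rfl⟩
  let S : Finset F := CS.image jK ∪ (s.image fun d => ε (i1 (y0 d))) ∪
    (s.image fun d => ε (PowerSeries.C (y0 d)))
  -- integrality
  have hint_jK : ∀ k, IsIntegral (MvPolynomial (Fin 2) K) (jK k) := by
    intro k
    have h1 : IsIntegral K k := Algebra.IsIntegral.isIntegral k
    obtain ⟨m, hm, hm0⟩ := h1
    refine ⟨m.map MvPolynomial.C, hm.map _, ?_⟩
    rw [eval₂_map]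
    have : (algebraMap (MvPolynomial (Fin 2) K) F).comp MvPolynomial.C = κF := RingHom.ext hρC
    rw [this]
    simp only [κF]
    rw [← hom_eval₂, hm0, map_zero]
  have hint_κF : ∀ k, IsIntegral (MvPolynomial (Fin 2) K) (κF k) := fun k => hint_jK _
  have hint_t1 : IsIntegral (MvPolynomial (Fin 2) K) t1 := by
    rw [← ht1]
    exact (isIntegral_algebraMap (x := MvPolynomial.X 0)).add
      ((isIntegral_algebraMap (x := MvPolynomial.X 1)).mul (hint_jK _))
  have hint_t2 : IsIntegral (MvPolynomial (Fin 2) K) t2 := by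
    rw [← ht2]
    exact (isIntegral_algebraMap (x := MvPolynomial.X 0)).add
      ((isIntegral_algebraMap (x := MvPolynomial.X 1)).mul (hint_jK _))
  have hint_y : ∀ d ∈ s, IsIntegral (MvPolynomial (Fin 2) K) (ε (i1 (y0 d))) := by
    intro d hd
    apply integral_root (f.map (eval₂RingHom κF t1)) (hfm.map _)
    · intro i
      rw [coeff_map]
      exact integral_poly _ (by intro k; simpa using hint_κF k) (by simpa using hint_t1) _
    · rw [hf1, eval_prod]
      apply Finset.prod_eq_zero hd
      simp
  have hint_y' : ∀ d ∈ s, IsIntegral (MvPolynomial (Fin 2) K) (ε (PowerSeries.C (y0 d))) := by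
    intro d hd
    apply integral_root (f.map (eval₂RingHom κF t2)) (hfm.map _)
    · intro i
      rw [coeff_map]
      exact integral_poly _ (by intro k; simpa using hint_κF k) (by simpa using hint_t2) _
    · rw [hf2, eval_prod]
      apply Finset.prod_eq_zero hd
      simp
  have hintS : ∀ x ∈ (S : Set F), IsIntegral (RQ K) x := by
    intro x hx
    have : IsIntegral (MvPolynomial (Fin 2) K) x := by
      simp only [S, Finset.coe_union, Finset.coe_image, Set.mem_union, Set.mem_image,
        Finset.mem_coe] at hx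
      rcases hx with (⟨k, _, rfl⟩ | ⟨d, hd, rfl⟩) | ⟨d, hd, rfl⟩
      · exact hint_jK k
      · exact hint_y d hd
      · exact hint_y' d hd
    exact this.tower_top
  obtain ⟨E, hE1, hE2, hSE⟩ := exists_galois (Q := RQ K) (F := F) (S : Set F) S.finite_toSet hintS
  let e : E →+* F := (E.val : E →+* F)
  have he : Function.Injective e := e.injective
  have heR : ∀ r : MvPolynomial (Fin 2) K, e (algebraMap (MvPolynomial (Fin 2) K) E r) = ρ r :=
    fun r => rfl
  have hmem : ∀ x ∈ S, ∃ z : E, e z = x := fun x hx => ⟨⟨x, hSE hx⟩, rfl⟩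
  have hCSS : ∀ k ∈ CS, jK k ∈ S := fun k hk =>
    Finset.mem_union_left _ (Finset.mem_union_left _ (Finset.mem_image_of_mem _ hk))
  have hw1 : w1 ∈ CS := Finset.mem_union_left _ (by simp)
  have hw2 : w2 ∈ CS := Finset.mem_union_left _ (by simp)
  obtain ⟨x1, hx1⟩ := hmem (jK w1) (hCSS _ hw1)
  obtain ⟨x2, hx2⟩ := hmem (jK w2) (hCSS _ hw2)
  have hyex : ∀ d, ∃ z : E, d ∈ s → e z = ε (i1 (y0 d)) := by
    intro d
    by_cases hd : d ∈ s
    · obtain ⟨z, hz⟩ := hmem (ε (i1 (y0 d))) (Finset.mem_union_left _ (Finset.mem_union_right _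
        (Finset.mem_image_of_mem _ hd)))
      exact ⟨z, fun _ => hz⟩
    · exact ⟨0, fun h => absurd h hd⟩
  choose y hy using hyex
  have hyex' : ∀ d, ∃ z : E, d ∈ s → e z = ε (PowerSeries.C (y0 d)) := by
    intro d
    by_cases hd : d ∈ s
    · obtain ⟨z, hz⟩ := hmem (ε (PowerSeries.C (y0 d))) (Finset.mem_union_right _
        (Finset.mem_image_of_mem _ hd))
      exact ⟨z, fun _ => hz⟩
    · exact ⟨0, fun h => absurd h hd⟩
  choose y' hy' using hyex'
  let κ : K →+* E := (algebraMap (MvPolynomial (Fin 2) K) E).comp MvPolynomial.C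
  have heκ : ∀ k, e (κ k) = κF k := fun k => by
    change ρ (MvPolynomial.C k) = _
    exact hρC k
  have heκ' : e.comp κ = κF := RingHom.ext heκ
  let t : E → E := fun x => algebraMap (MvPolynomial (Fin 2) K) E (MvPolynomial.X 0) +
          algebraMap (MvPolynomial (Fin 2) K) E (MvPolynomial.X 1) * x
  have het1 : e (t x1) = t1 := by
    simp only [t]
    rw [map_add, map_mul, heR, heR, hx1, ht1]
  have het2 : e (t x2) = t2 := by
    simp only [t]
    rw [map_add, map_mul, heR, heR, hx2, ht2]
  let W : Finset E := S.preimage e he.injOn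
  have hWmem : ∀ z : E, e z ∈ S → z ∈ W := fun z hz => by
    rw [Finset.mem_preimage]; exact hz
  have hcomp : ∀ z : E, e.comp (eval₂RingHom κ z) = eval₂RingHom κF (e z) := by
    intro z
    apply Polynomial.ringHom_ext
    · intro k
      simp only [RingHom.comp_apply, coe_eval₂RingHom, eval₂_C, heκ]
    · simp only [RingHom.comp_apply, coe_eval₂RingHom, eval₂_X]
  have hPJe : ∀ J : Finset Kb, J ⊆ s → (∏ d ∈ J, (X - C (y d))).map e =
      (PJ0 J).map (ε.comp i1) := by
    intro J hJ
    simp only [PJ0, Polynomial.map_prod, Polynomial.map_sub, map_X, map_C, RingHom.comp_apply]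
    apply Finset.prod_congr rfl
    intro d hd
    rw [hy d (hJ hd)]
  refine ⟨E, inferInstance, inferInstance, inferInstance, inferInstance, hE1, hE2, κ, t, x1, x2, s,
    y, y', W, fun _ => rfl, fun _ => rfl, ?_, ?_, ?_, ?_, ?_, hscard, ?_, ?_, ?_, ?_, ?_, ?_, ?_⟩
  · intro m hm
    apply he
    rw [hom_eval₂, heκ', hx1, map_zero]
    simp only [κF]
    rw [← hom_eval₂]
    rw [aeval_def] at hm
    rw [hm, map_zero]
  · intro m hm
    apply he
    rw [hom_eval₂, heκ', hx2, map_zero]
    simp only [κF]
    rw [← hom_eval₂]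
    rw [aeval_def] at hm
    rw [hm, map_zero]
  · intro h
    apply hne
    apply jK.injective
    rw [← hx1, ← hx2, h]
  · apply Polynomial.map_injective e he
    rw [map_map, hcomp, het1, hf1]
    simp only [Polynomial.map_prod, Polynomial.map_sub, map_X, map_C]
    apply Finset.prod_congr rfl
    intro d hd
    rw [hy d hd]
  · apply Polynomial.map_injective e he
    rw [map_map, hcomp, het2, hf2]
    simp only [Polynomial.map_prod, Polynomial.map_sub, map_X, map_C]
    apply Finset.prod_congr rfl
    intro d hd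
    rw [hy' d hd]
  · intro d hd d' hd' hdd
    have h1 : ε (i1 (y0 d)) = ε (i1 (y0 d')) := by rw [← hy d hd, ← hy d' hd', hdd]
    have h2 := i1_injective (hε h1)
    rw [← hy01 d hd, ← hy01 d' hd', h2]
  · exact hWmem _ (by rw [hx1]; exact hCSS _ hw1)
  · exact hWmem _ (by rw [hx2]; exact hCSS _ hw2)
  · intro d hd
    apply hWmem
    rw [hy d hd]
    exact Finset.mem_union_left _ (Finset.mem_union_right _ (Finset.mem_image_of_mem _ hd))
  · intro d hd
    apply hWmem
    rw [hy' d hd]
    exact Finset.mem_union_right _ (Finset.mem_image_of_mem _ hd)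
  · intro J hJ hfix
    -- the coefficients are in F_2
    let δ : (PowerSeries Kb)[X] →+* F := ε.comp i2
    have hδ : Function.Injective δ := hi2
    let L2 : IntermediateField (RQ K) F :=
      (Subfield.closure (Set.range δ)).toIntermediateField (by
        intro q
        obtain ⟨n, d, _, rfl⟩ := IsFractionRing.div_surjective (A := MvPolynomial (Fin 2) K) q
        rw [map_div₀, ← IsScalarTower.algebraMap_apply, ← IsScalarTower.algebraMap_apply]
        exact Subfield.div_mem _ (Subfield.subset_closure ⟨psi c' (eta w1 w2 n), rfl⟩)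
          (Subfield.subset_closure ⟨psi c' (eta w1 w2 d), rfl⟩))
    have hL2 : ∀ z, z ∈ Subfield.closure (Set.range δ) ↔ z ∈ L2 := fun z => Iff.rfl
    have hlift : PJ0 J ∈ Polynomial.lifts (sg c') := by
      rw [lifts_iff_coeff_lifts]
      intro i
      have h1 : (∏ d ∈ J, (X - C (y d))).coeff i ∈
          IntermediateField.adjoin (RQ K) ({x2} ∪ y' '' (s : Set Kb)) := by
        apply mem_adjoin_of_fixed
        intro σ hσ
        apply hfix i σ
        · exact hσ x2 (by simp)
        · intro d hd
          exact hσ (y' d) (Set.mem_union_right _ ⟨d, hd, rfl⟩)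
      have h2 : IntermediateField.adjoin (RQ K) ({x2} ∪ y' '' (s : Set Kb)) ≤
          L2.comap E.val := by
        rw [IntermediateField.adjoin_le_iff]
        rintro z (hz | ⟨d, hd, rfl⟩)
        · rw [Set.mem_singleton_iff] at hz
          rw [hz]
          change e x2 ∈ L2
          rw [hx2, ← hL2]
          apply Subfield.subset_closure
          refine ⟨C (PowerSeries.C w2), ?_⟩
          simp only [δ, RingHom.comp_apply, i2_C, hjK]
        · change e (y' d) ∈ L2
          rw [hy' d hd, ← hL2]
          apply Subfield.subset_closure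
          refine ⟨C (y0 d), ?_⟩
          simp only [δ, RingHom.comp_apply, i2_C]
      have h3 : e ((∏ d ∈ J, (X - C (y d))).coeff i) ∈ Subfield.closure (Set.range δ) := h2 h1
      have h4 : e ((∏ d ∈ J, (X - C (y d))).coeff i) = ε (i1 ((PJ0 J).coeff i)) := by
        rw [← coeff_map, hPJe J hJ, coeff_map, RingHom.comp_apply]
      have h5 : IsIntegral (MvPolynomial (Fin 2) K) (ε (i1 ((PJ0 J).coeff i))) := by
        have h6 : ε (i1 ((PJ0 J).coeff i)) = (∏ d ∈ J, (X - C (ε (i1 (y0 d))))).coeff i := by
          rw [← RingHom.comp_apply, ← coeff_map]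
          simp only [PJ0, Polynomial.map_prod, Polynomial.map_sub, map_X, map_C,
            RingHom.comp_apply]
        rw [h6]
        exact integral_prod J _ (fun d hd => hint_y d (hJ hd)) i
      rw [h4] at h3
      have h7 : δ.IsIntegralElem (ε (i1 ((PJ0 J).coeff i))) := by
        obtain ⟨m, hm, hm0⟩ := h5
        refine ⟨m.map ((psi c').comp (eta w1 w2)), hm.map _, ?_⟩
        rw [eval₂_map]
        exact hm0
      obtain ⟨q, hq⟩ := mem_range_of_integral δ hδ _ h3 h7
      have h8 : i1 ((PJ0 J).coeff i) = i2 q := hε hq.symm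
      obtain ⟨r, hr⟩ := sg_surj c' ((PJ0 J).coeff i) q.natDegree (i1_i2 _ _ h8)
      exact ⟨r, hr⟩
    have hpJ1 := hpJ J hlift
    have hpJm : (pJ J).Monic := by
      apply monic_of_injective (sg_injective c')
      rw [hpJ1]
      exact monic_prod_of_monic _ _ fun d _ => monic_X_sub_C _
    obtain ⟨p, hp⟩ := lifts2 e ((pJ J).map (mapRingHom jK)) (by
      intro i j
      rw [coeff_map, coe_mapRingHom, coeff_map]
      obtain ⟨z, hz⟩ := hmem _ (hCSS _ (hCS J hJ i j))
      exact ⟨z, hz⟩)
    have hpc : ∀ i j, e ((p.coeff i).coeff j) = jK (((pJ J).coeff i).coeff j) := by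
      intro i j
      have := congrArg (fun q : F[X][X] => (q.coeff i).coeff j) hp
      simpa only [coeff_map, coe_mapRingHom] using this
    have hpm : p.Monic := by
      have h1 : Function.Injective (mapRingHom e) := Polynomial.map_injective e he
      apply monic_of_injective h1
      rw [hp]
      exact hpJm.map _
    refine ⟨p, hpm, ?_, ?_, ?_, ?_⟩
    · intro i j
      apply hWmem
      rw [hpc]
      exact hCSS _ (hCS J hJ i j)
    · intro i j
      obtain ⟨m, hm, hm0⟩ : IsAlgebraic K (((pJ J).coeff i).coeff j) :=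
        Algebra.IsAlgebraic.isAlgebraic _
      refine ⟨m, hm, ?_⟩
      apply he
      rw [hom_eval₂, heκ', hpc, map_zero]
      simp only [κF]
      rw [← hom_eval₂]
      rw [aeval_def] at hm0
      rw [hm0, map_zero]
    · apply Polynomial.map_injective e he
      rw [hPJe J hJ, ← hpJ1, map_map, map_map]
      have e1 : e.comp (evalRingHom (t x1)) = (evalRingHom t1).comp (mapRingHom e) := by
        apply Polynomial.ringHom_ext
        · intro k
          simp
        · simp [het1]
      have e2 : (evalRingHom t1).comp (mapRingHom jK) = (ε.comp i1).comp (sg c') := by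
        apply Polynomial.ringHom_ext
        · intro k
          simp [hjK, sg_C, i1_C]
        · simp [ht1']
      rw [e1, ← map_map, hp, map_map, e2]
    · have h1 : Function.Injective (mapRingHom e) := Polynomial.map_injective e he
      rw [← map_dvd_map _ h1 hpm, hp, map_map]
      have e3 : (mapRingHom e).comp (mapRingHom κ) =
          (mapRingHom jK).comp (mapRingHom (algebraMap K Kb)) := by
        apply Polynomial.ringHom_ext
        · intro k
          simp [heκ, κF]
        · simp
      rw [e3, ← map_map]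
      apply Polynomial.map_dvd
      rw [← map_dvd_map _ (sg_injective c') hpJm, hpJ1]
      change PJ0 J ∣ F1
      rw [hy02]
      exact Finset.prod_dvd_prod_of_subset _ _ _ hJ
  · intro p hp hp0
    have h1 : p.map e ∈ Polynomial.lifts jK := by
      rw [lifts_iff_coeff_lifts]
      intro i
      obtain ⟨m, hm, hm0⟩ := hp i
      rw [coeff_map]
      obtain ⟨k, hk⟩ := mem_range_of_algebraic (algebraMap K Kb) jK (e (p.coeff i)) m hm (by
        change m.eval₂ κF _ = 0
        rw [← heκ', ← hom_eval₂, hm0, map_zero])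
      exact ⟨k, hk⟩
    obtain ⟨q, hq⟩ := (mem_lifts _).mp h1
    have h2 : q.eval₂ jK t1 = 0 := by
      rw [← eval_map, hq, ← het1, eval_map_apply, hp0, map_zero]
    have h3 : eval₂RingHom jK t1 = (ε.comp i1).comp (sg c') := by
      apply Polynomial.ringHom_ext
      · intro k
        simp [hjK, sg_C, i1_C]
      · simp [ht1']
    have h4 : ε (i1 (sg c' q)) = 0 := by
      rw [← h2]
      exact (congrArg (fun g : Kb[X] →+* F => g q) h3).symm
    have h5 : q = 0 := by
      apply sg_injective c'
      apply i1_injective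
      apply hε
      rw [h4, map_zero, map_zero, map_zero]
    apply Polynomial.map_injective e he
    rw [← hq, h5, Polynomial.map_zero, Polynomial.map_zero]

end Pool.Agent.H298R2.Kuyk
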