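import Mathlib
import Pool.Agent.H298R2.Kuyk8

/-! Kuyk's theorem, part 9: Galois lemmas for the assembly. -/

set_option autoImplicit false

namespace Pool.Agent.H298R2.Kuyk

open Polynomial

theorem phi_inj {K E F' : Type} [Field K] [Field E] [Field F'] [Algebra K E] (B : Subring E)
    (κB : K →+* B) (hκ : ∀ k, (κB k : E) = algebraMap K E k) (Φ : B →+* F') (b : B)
    (hb : IsAlgebraic K (b : E)) (h0 : Φ b = 0) : b = 0 := by
  by_contra hne
  have hne' : (b : E) ≠ 0 := by
    intro h
    apply hne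
    exact Subtype.ext h
  have h1 := minpoly.coeff_zero_ne_zero hb.isIntegral hne'
  have h2 : (minpoly K (b : E)).eval₂ κB b = 0 := by
    apply Subtype.ext
    have h3 := minpoly.aeval K (b : E)
    rw [aeval_def] at h3
    have h4 : B.subtype.comp κB = algebraMap K E := RingHom.ext hκ
    change B.subtype _ = _
    rw [hom_eval₂, h4]
    exact h3
  have h5 := congrArg Φ h2
  rw [hom_eval₂, h0, eval₂_at_zero, map_zero] at h5
  exact h1 ((map_eq_zero _).mp h5)

theorem phi_inj' {K E F' : Type} [Field K] [Field E] [Field F'] [Algebra K E] (B : Subring E)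
    (κB : K →+* B) (hκ : ∀ k, (κB k : E) = algebraMap K E k) (Φ : B →+* F') (b b' : B)
    (hb : IsAlgebraic K (b : E)) (hb' : IsAlgebraic K (b' : E)) (h0 : Φ b = Φ b') : b = b' := by
  rw [← sub_eq_zero]
  apply phi_inj B κB hκ Φ
  · exact hb.sub hb'
  · rw [map_sub, h0, sub_self]

theorem comm_lemma {K M Kb F' : Type} [Field K] [Field M] [Field Kb] [Field F'] [Algebra K M]
    [Algebra M Kb] [Algebra K Kb] [IsScalarTower K M Kb] [Normal K M] [Normal K Kb]
    [Algebra K F'] [Normal K F'] (hab : ∀ σ τ : M ≃ₐ[K] M, σ * τ = τ * σ)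
    (j : F' →ₐ[K] Kb) (z : F') (hz : j z ∈ (algebraMap M Kb).range) (σ τ : F' ≃ₐ[K] F') :
    σ (τ z) = τ (σ z) := by
  let alg : Algebra F' Kb := j.toRingHom.toAlgebra
  have hj : ∀ x, algebraMap F' Kb x = j x := fun _ => rfl
  have tow : IsScalarTower K F' Kb := IsScalarTower.of_algebraMap_eq (fun x => by
    rw [hj, AlgHom.commutes])
  obtain ⟨m, hm⟩ := hz
  have h1 : ∀ ρ : F' ≃ₐ[K] F', ∀ x, ρ.liftNormal Kb (j x) = j (ρ x) := by
    intro ρ x
    rw [← hj, ← hj, AlgEquiv.liftNormal_commutes]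
  have h2 : ∀ ρ : F' ≃ₐ[K] F', ∀ x : M, algebraMap M Kb ((ρ.liftNormal Kb).restrictNormal M x) =
      ρ.liftNormal Kb (algebraMap M Kb x) := by
    intro ρ x
    rw [AlgEquiv.restrictNormal_commutes]
  have hj' : Function.Injective j := j.injective
  apply hj'
  have h3 : ∀ ρ ρ' : F' ≃ₐ[K] F', j (ρ (ρ' z)) = algebraMap M Kb
      (((ρ.liftNormal Kb).restrictNormal M) (((ρ'.liftNormal Kb).restrictNormal M) m)) := by
    intro ρ ρ'
    rw [h2, h2, hm, h1, h1]
  rw [h3, h3]
  congr 1
  have := congrArg (fun e : M ≃ₐ[K] M => e m)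
    (hab ((σ.liftNormal Kb).restrictNormal M) ((τ.liftNormal Kb).restrictNormal M))
  exact this

theorem exists_other_root {K M Kb : Type} [Field K] [CharZero K] [Field M] [Field Kb]
    [Algebra K M] [Algebra M Kb] [Algebra K Kb] [IsScalarTower K M Kb] [IsAlgClosed Kb]
    (w : M) (hwi : IsIntegral K w) (hw : w ∉ (algebraMap K M).range) :
    ∃ w2 : Kb, aeval w2 (minpoly K w) = 0 ∧ w2 ≠ algebraMap M Kb w := by
  classical
  by_contra hcon
  push Not at hcon
  have hs : (minpoly K w).Separable := (minpoly.irreducible hwi).separable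
  have h1 : ((minpoly K w).map (algebraMap K Kb)).Splits := IsAlgClosed.splits _
  have h2 := h1.natDegree_eq_card_roots
  rw [(minpoly.monic hwi).natDegree_map] at h2
  have h3 : ((minpoly K w).map (algebraMap K Kb)).roots.Nodup := nodup_roots hs.map
  have h4 : ((minpoly K w).map (algebraMap K Kb)).roots ≤ {algebraMap M Kb w} := by
    rw [Multiset.le_iff_subset h3]
    intro x hx
    rw [mem_roots ((minpoly.monic hwi).map _).ne_zero, IsRoot, eval_map_algebraMap] at hx
    rw [Multiset.mem_singleton]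
    exact hcon x hx
  have h5 := Multiset.card_le_card h4
  rw [← h2, Multiset.card_singleton] at h5
  apply hw
  have h6 : (minpoly K w).degree = 1 := by
    have := minpoly.natDegree_pos hwi
    have h7 : (minpoly K w).natDegree = 1 := by omega
    rw [degree_eq_natDegree (minpoly.ne_zero hwi), h7]; rfl
  exact minpoly.mem_range_of_degree_eq_one K w h6

end Pool.Agent.H298R2.Kuyk
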