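import Mathlib
import Pool.Agent.H298R2.Kuyk9

/-! Kuyk's theorem, part 10: assembly. -/

set_option autoImplicit false

namespace Pool.Agent.H298R2.Kuyk

open Polynomial
open Pool.Agent.H391R2.T4 (HilbField)

theorem transport {K M Kb E : Type} [Field K] [Field M] [Field Kb] [Field E] [Algebra K M]
    [Algebra M Kb] (B : Subring E) (Ψ : B →+* Kb) (κE : K →+* E) (κB : K →+* B)
    (hκ : ∀ k, (κB k : E) = κE k) (hΨ : ∀ k, Ψ (κB k) = algebraMap M Kb (algebraMap K M k))
    (f : K[X][X]) (p : E[X][X]) (hpm : p.Monic)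
    (hpc : ∀ i j, ∃ b : B, (b : E) = (p.coeff i).coeff j ∧ Ψ b ∈ (algebraMap M Kb).range)
    (hpd : p ∣ f.map (mapRingHom κE)) :
    ∃ pM : M[X][X], pM.Monic ∧ pM.natDegree = p.natDegree ∧
      pM ∣ f.map (mapRingHom (algebraMap K M)) := by
  let S : Subring (B × M) := RingHom.eqLocus (Ψ.comp (RingHom.fst B M))
    ((algebraMap M Kb).comp (RingHom.snd B M))
  have hS : ∀ x : S, Ψ (x : B × M).1 = algebraMap M Kb (x : B × M).2 := fun x => x.2
  let prE : S →+* E := (B.subtype.comp (RingHom.fst B M)).comp S.subtype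
  let prM : S →+* M := (RingHom.snd B M).comp S.subtype
  have hprE : Function.Injective prE := by
    intro x z h
    have h1 : (x : B × M).1 = (z : B × M).1 := Subtype.ext h
    apply Subtype.ext
    apply Prod.ext h1
    apply (algebraMap M Kb).injective
    rw [← hS, ← hS, h1]
  let κS : K →+* S := (κB.prod (algebraMap K M)).codRestrict S (fun k => hΨ k)
  have hκE : prE.comp κS = κE := by
    ext k
    exact hκ k
  have hκM : prM.comp κS = algebraMap K M := by
    ext k
    rfl
  obtain ⟨pS, hpS⟩ := lifts2 prE p (by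
    intro i j
    obtain ⟨b, hb, m, hm⟩ := hpc i j
    exact ⟨⟨(b, m), hm.symm⟩, hb⟩)
  have hinj : Function.Injective (mapRingHom prE) := Polynomial.map_injective prE hprE
  have hpSm : pS.Monic := by
    apply monic_of_injective hinj
    rw [hpS]; exact hpm
  have hpSd : pS ∣ f.map (mapRingHom κS) := by
    rw [← map_dvd_map _ hinj hpSm, hpS, map_map, mapRingHom_comp, hκE]
    exact hpd
  refine ⟨pS.map (mapRingHom prM), hpSm.map _, ?_, ?_⟩
  · rw [hpSm.natDegree_map, ← hpS, hpSm.natDegree_map]
  · have := Polynomial.map_dvd (mapRingHom prM) hpSd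
    rwa [map_map, mapRingHom_comp, hκM] at this

/-- The set of the values of the roots in the orbit is stable. -/
theorem prod_map_eq {E ι : Type} [Field E] (σ : E →+* E) (O : Finset ι) (y : ι → E)
    (hy : Set.InjOn y O) (h : ∀ d ∈ O, ∃ d' ∈ O, σ (y d) = y d') :
    (∏ d ∈ O, (X - C (y d))).map σ = ∏ d ∈ O, (X - C (y d)) := by
  classical
  choose! g hg1 hg2 using h
  have hginj : Set.InjOn g O := by
    intro a ha b hb hab
    apply hy ha hb
    apply σ.injective
    rw [hg2 a ha, hg2 b hb, hab]
  have himg : O.image g = O := by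
    apply Finset.eq_of_subset_of_card_le
    · intro x hx
      rw [Finset.mem_image] at hx
      obtain ⟨a, ha, rfl⟩ := hx
      exact hg1 a ha
    · rw [Finset.card_image_of_injOn hginj]
  rw [Polynomial.map_prod]
  simp only [Polynomial.map_sub, map_X, map_C]
  conv_rhs => rw [← himg]
  rw [Finset.prod_image (fun a ha b hb => hginj ha hb)]
  apply Finset.prod_congr rfl
  intro d hd
  rw [hg2 d hd]

end Pool.Agent.H298R2.Kuyk
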