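import Mathlib
import Pool.Agent.H298R2.Kuyk10

/-! Kuyk's theorem, part 11: the main argument. -/

set_option autoImplicit false

namespace Pool.Agent.H298R2.Kuyk

open Polynomial
open Pool.Agent.H391R2.T4 (HilbField)

theorem kuyk_core {K M : Type} [Field K] [CharZero K] [Field M] [Algebra K M] [IsGalois K M]
    (hab : ∀ σ τ : M ≃ₐ[K] M, σ * τ = τ * σ) (hK : HilbField K)
    (f : K[X][X]) (hfm : f.Monic) (hfi : Irreducible (f.map (mapRingHom (algebraMap K M))))
    (g : M[X]) (hg : g ≠ 0) (w : M) (hw : w ∉ (algebraMap K M).range) :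
    ∃ a : M, g.eval a ≠ 0 ∧
      Irreducible ((f.map (mapRingHom (algebraMap K M))).map (evalRingHom a)) := by
  classical
  -- the algebraic closure
  obtain ⟨Kb, iF, iA, hclM⟩ : ∃ (Kb : Type) (_ : Field Kb) (_ : Algebra M Kb), IsAlgClosure M Kb :=
    ⟨AlgebraicClosure M, inferInstance, inferInstance, inferInstance⟩
  have hcl : IsAlgClosed Kb := hclM.isAlgClosed
  have halgM : Algebra.IsAlgebraic M Kb := hclM.isAlgebraic
  let iK : Algebra K Kb := ((algebraMap M Kb).comp (algebraMap K M)).toAlgebra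
  have tow : IsScalarTower K M Kb := IsScalarTower.of_algebraMap_eq (fun _ => rfl)
  have halg : Algebra.IsAlgebraic K Kb := Algebra.IsAlgebraic.trans K M Kb
  have hclK : IsAlgClosure K Kb := ⟨hcl, halg⟩
  have hnK : Normal K Kb := inferInstance
  -- preliminary data
  have hwi : IsIntegral K w := Algebra.IsIntegral.isIntegral w
  set m : K[X] := minpoly K w with hm
  have hmm : m.Monic := minpoly.monic hwi
  have hmi : Irreducible m := minpoly.irreducible hwi
  obtain ⟨w2, hw2, hw2ne⟩ := exists_other_root (Kb := Kb) w hwi hw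
  set w1 : Kb := algebraMap M Kb w with hw1
  have hw1m : aeval w1 m = 0 := by
    rw [hw1, aeval_algebraMap_apply, hm, minpoly.aeval, map_zero]
  have hfi0 : Irreducible f := by
    have := hfm
    exact hfm.irreducible_of_irreducible_map (mapRingHom (algebraMap K M)) f hfi
  obtain ⟨r, hr0, fu, fw, hfuw⟩ := sep_bezout f (monic_irreducible_separable f hfm hfi0)
  have hex : ∃ c : K, r.eval c ≠ 0 := by
    by_contra hcon
    push Not at hcon
    apply hr0
    apply Polynomial.funext
    intro x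
    rw [hcon, eval_zero]
  obtain ⟨c, hc⟩ := hex
  have hcs : (f.map (evalRingHom c)).Separable := sep_map f fu fw r hfuw (evalRingHom c) hc
  -- the generic extension
  obtain ⟨ε, hε⟩ : ∃ ε : PowerSeries (PowerSeries Kb) →+*
      AlgebraicClosure (FractionRing (PowerSeries (PowerSeries Kb))), Function.Injective ε :=
    ⟨(algebraMap (FractionRing (PowerSeries (PowerSeries Kb))) _).comp (algebraMap _ _),
      (algebraMap (FractionRing (PowerSeries (PowerSeries Kb))) _).injective.comp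
        (IsFractionRing.injective _ _)⟩
  obtain ⟨E, iE1, iE2, iE3, iE4, iE5, iE6, κ, t, x1, x2, s, y, y', W, hκ, ht, hx1, hx2, hx12,
    hf1, hf2, hscard, hyinj, hx1W, hx2W, hyW, hy'W, hkey, huniq⟩ :=
    generic_core ε hε f hfm c hcs w1 w2 (Ne.symm hw2ne)
  -- the avoidance polynomial
  let gr : Kb[X] := (g * r.map (algebraMap K M)).map (algebraMap M Kb)
  have hgr : gr ≠ 0 := by
    rw [Ne, Polynomial.map_eq_zero]
    apply mul_ne_zero hg
    rw [Ne, Polynomial.map_eq_zero]
    exact hr0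
  have hav : ∀ w' : Kb, ∃ G : MvPolynomial (Fin 2) K, G ≠ 0 ∧ ∀ b : Fin 2 → K,
      MvPolynomial.eval b G ≠ 0 →
        gr.eval (algebraMap K Kb (b 0) + algebraMap K Kb (b 1) * w') ≠ 0 := by
    intro w'
    let z : MvPolynomial (Fin 2) Kb :=
      gr.eval₂ MvPolynomial.C (MvPolynomial.X 0 + MvPolynomial.X 1 * MvPolynomial.C w')
    have hz : z ≠ 0 := by
      intro hz0
      apply hgr
      let lam : MvPolynomial (Fin 2) Kb →+* Kb[X] := MvPolynomial.eval₂Hom C ![X, 0]
      have h1 : lam z = gr := by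
        simp only [z]
        rw [hom_eval₂]
        have h2 : lam.comp MvPolynomial.C = C := by
          ext k
          simp [lam]
        have h3 : lam (MvPolynomial.X 0 + MvPolynomial.X 1 * MvPolynomial.C w') = X := by
          simp [lam]
        rw [h2, h3, eval₂_C_X]
      rw [← h1, hz0, map_zero]
    obtain ⟨G, hG0, hG⟩ := avoid1 (K := K) z hz
    refine ⟨G, hG0, ?_⟩
    intro b hb
    have h1 := hG b hb
    simp only [z] at h1
    rw [hom_eval₂] at h1
    have h2 : (MvPolynomial.eval fun i => algebraMap K Kb (b i)).comp MvPolynomial.C =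
        RingHom.id Kb := by
      ext k
      simp
    rw [h2] at h1
    simpa [eval₂_id] using h1
  choose G hG0 hG using hav
  -- specialisation
  obtain ⟨a0, ha0, F', iF1, iF2, iF3, iF4, ψ, B, hR, hB, Φ, hWB, hΦR, hΦψ⟩ :=
    spec_mv hK (Q := RQ K) (E := E) W (∏ w' ∈ (m.aroots Kb).toFinset, G w')
      (Finset.prod_ne_zero_iff.mpr fun w' _ => hG0 w')
  rw [map_prod, Finset.prod_ne_zero_iff] at ha0
  let j : F' →ₐ[K] Kb := IsAlgClosed.lift
  have hj : Function.Injective j := j.injective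
  let algE : Algebra K E := κ.toAlgebra
  have hκalg : ∀ k, algebraMap K E k = κ k := fun _ => rfl
  let κB : K →+* B := κ.codRestrict B (fun k => by
    rw [hκ]; exact hR _)
  have hκB : ∀ k, (κB k : E) = algebraMap K E k := fun _ => rfl
  have hΦκ : ∀ k, Φ (κB k) = algebraMap K F' k := by
    intro k
    have h1 : κB k = ⟨algebraMap (MvPolynomial (Fin 2) K) E (MvPolynomial.C k), hR _⟩ :=
      Subtype.ext (hκ k)
    rw [h1, hΦR, MvPolynomial.eval_C]
  -- elements of B
  let X1 : B := ⟨x1, hWB hx1W⟩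
  let X2 : B := ⟨x2, hWB hx2W⟩
  have hYex : ∀ d, ∃ z : B, d ∈ s → (z : E) = y d := by
    intro d
    by_cases hd : d ∈ s
    · exact ⟨⟨y d, hWB (hyW d hd)⟩, fun _ => rfl⟩
    · exact ⟨0, fun h => absurd h hd⟩
  choose Y hY using hYex
  let z : Kb → F' := fun d => Φ (Y d)
  -- algebraic elements
  have hx1alg : IsAlgebraic K x1 := ⟨m, hmm.ne_zero, hx1 m hw1m⟩
  have hx2alg : IsAlgebraic K x2 := ⟨m, hmm.ne_zero, hx2 m hw2⟩
  have hσκ : ∀ (σ : E ≃ₐ[RQ K] E) k, σ (κ k) = κ k := by
    intro σ k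
    rw [hκ, IsScalarTower.algebraMap_apply (MvPolynomial (Fin 2) K) (RQ K) E, σ.commutes]
  have hσR : ∀ (σ : E ≃ₐ[RQ K] E) (q : MvPolynomial (Fin 2) K),
      σ (algebraMap (MvPolynomial (Fin 2) K) E q) = algebraMap (MvPolynomial (Fin 2) K) E q := by
    intro σ q
    rw [IsScalarTower.algebraMap_apply (MvPolynomial (Fin 2) K) (RQ K) E, σ.commutes]
  have hσt : ∀ (σ : E ≃ₐ[RQ K] E) x, σ (t x) = t (σ x) := by
    intro σ x
    rw [ht, ht, map_add, map_mul, hσR, hσR]
  have hσalg : ∀ (σ : E ≃ₐ[RQ K] E) (x : E), IsAlgebraic K x → IsAlgebraic K (σ x) := by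
    rintro σ x ⟨q, hq, hq0⟩
    refine ⟨q, hq, ?_⟩
    rw [aeval_def] at hq0 ⊢
    have h1 : ((σ : E →+* E).comp (algebraMap K E)) = algebraMap K E := by
      ext k
      exact hσκ σ k
    have h2 := congrArg (σ : E →+* E) hq0
    rw [hom_eval₂, h1, map_zero] at h2
    exact h2
  -- the value at the specialisation
  have hmΦ : ∀ X : B, m.eval₂ κ (X : E) = 0 → aeval (Φ X) m = 0 := by
    intro X hX
    have h1 : m.eval₂ κB X = 0 := by
      apply Subtype.ext
      change B.subtype _ = _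
      rw [hom_eval₂]
      exact hX
    have h2 := congrArg Φ h1
    rw [hom_eval₂, map_zero] at h2
    have h3 : Φ.comp κB = algebraMap K F' := RingHom.ext hΦκ
    rw [h3] at h2
    exact h2
  have hΦX1 : aeval (Φ X1) m = 0 := hmΦ X1 (hx1 m hw1m)
  have hΦX2 : aeval (Φ X2) m = 0 := hmΦ X2 (hx2 m hw2)
  have hjX1 : aeval (j (Φ X1)) m = 0 := by
    rw [aeval_algHom_apply, hΦX1, map_zero]
  have hjX1M : j (Φ X1) ∈ (algebraMap M Kb).range := by
    have h1 : (m.map (algebraMap K M)).Splits := Normal.splits inferInstance w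
    apply h1.mem_range_of_isRoot ((hmm.map _).ne_zero)
    rw [IsRoot, map_map, eval_map]
    exact hjX1
  obtain ⟨m0, hm0⟩ := hjX1M
  let a : M := algebraMap K M (a0 0) + algebraMap K M (a0 1) * m0
  have ha : algebraMap M Kb a = algebraMap K Kb (a0 0) + algebraMap K Kb (a0 1) * j (Φ X1) := by
    simp only [a]
    rw [map_add, map_mul, hm0]
    rfl
  have hgra : gr.eval (algebraMap M Kb a) ≠ 0 := by
    rw [ha]
    apply hG
    apply ha0
    rw [Multiset.mem_toFinset, mem_aroots]
    exact ⟨hmm.ne_zero, hjX1⟩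
  have hgra' : g.eval a * (r.map (algebraMap K M)).eval a ≠ 0 := by
    intro h0
    apply hgra
    simp only [gr]
    rw [eval_map_apply, eval_mul, h0, map_zero]
  have hga : g.eval a ≠ 0 := left_ne_zero_of_mul hgra'
  have hra : (r.map (algebraMap K M)).eval a ≠ 0 := right_ne_zero_of_mul hgra'
  refine ⟨a, hga, ?_⟩
  set fa : M[X] := (f.map (mapRingHom (algebraMap K M))).map (evalRingHom a) with hfa
  have hfam : fa.Monic := (hfm.map _).map _
  have hfas : fa.Separable := by
    rw [hfa, map_map]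
    exact sep_map f fu fw r hfuw ((evalRingHom a).comp (mapRingHom (algebraMap K M))) hra
  -- the factorisation over F'
  let TB : B := ⟨algebraMap (MvPolynomial (Fin 2) K) E (MvPolynomial.X 0), hR _⟩ +
    ⟨algebraMap (MvPolynomial (Fin 2) K) E (MvPolynomial.X 1), hR _⟩ * X1
  have hTB : (TB : E) = t x1 := (ht x1).symm
  have hΦTB : Φ TB = algebraMap K F' (a0 0) + algebraMap K F' (a0 1) * Φ X1 := by
    simp only [TB]
    rw [map_add, map_mul, hΦR, hΦR, MvPolynomial.eval_X, MvPolynomial.eval_X]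
  have hjTB : j (Φ TB) = algebraMap M Kb a := by
    rw [hΦTB, map_add, map_mul, AlgHom.commutes, AlgHom.commutes, ha]
  have hfB : f.map (eval₂RingHom κB TB) = ∏ d ∈ s, (X - C (Y d)) := by
    apply Polynomial.map_injective B.subtype (Subring.subtype_injective B)
    rw [map_map]
    have e1 : B.subtype.comp (eval₂RingHom κB TB) = eval₂RingHom κ (t x1) := by
      apply Polynomial.ringHom_ext
      · intro k
        simp only [RingHom.comp_apply, coe_eval₂RingHom, eval₂_C]
        rfl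
      · simp only [RingHom.comp_apply, coe_eval₂RingHom, eval₂_X]
        exact hTB
    rw [e1, hf1]
    simp only [Polynomial.map_prod, Polynomial.map_sub, map_X, map_C]
    apply Finset.prod_congr rfl
    intro d hd
    rw [← hY d hd]
    rfl
  have hfF : f.map (eval₂RingHom (algebraMap K F') (Φ TB)) = ∏ d ∈ s, (X - C (z d)) := by
    have e1 : eval₂RingHom (algebraMap K F') (Φ TB) = Φ.comp (eval₂RingHom κB TB) := by
      apply Polynomial.ringHom_ext
      · intro k
        simp only [RingHom.comp_apply, coe_eval₂RingHom, eval₂_C, hΦκ]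
      · simp only [RingHom.comp_apply, coe_eval₂RingHom, eval₂_X]
    rw [e1, ← map_map, hfB]
    simp only [Polynomial.map_prod, Polynomial.map_sub, map_X, map_C, z]
  have hfaK : fa.map (algebraMap M Kb) = (∏ d ∈ s, (X - C (z d))).map (j : F' →+* Kb) := by
    rw [← hfF, hfa, map_map, map_map, map_map]
    congr 1
    apply Polynomial.ringHom_ext
    · intro k
      simp only [RingHom.comp_apply, coe_eval₂RingHom, eval₂_C, coe_mapRingHom, map_C,
        coe_evalRingHom, eval_C]
      exact (AlgHom.commutes j k).symm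
    · simp only [RingHom.comp_apply, coe_eval₂RingHom, eval₂_X, coe_mapRingHom, map_X,
        coe_evalRingHom, eval_X]
      exact hjTB.symm
  have hzinj : Set.InjOn z s := by
    have h1 : ((∏ d ∈ s, (X - C (z d))).map (j : F' →+* Kb)).Separable := by
      rw [← hfaK]; exact hfas.map
    rw [separable_map] at h1
    intro d hd d' hd' hdd
    exact (separable_prod_X_sub_C_iff'.mp h1) d hd d' hd' hdd
  -- the intermediate field
  let H1 : Subgroup (E ≃ₐ[RQ K] E) := fixingSubgroup (E ≃ₐ[RQ K] E) ({x1} ∪ y '' (s : Set Kb))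
  have hH1 : ∀ σ, σ ∈ H1 ↔ σ x1 = x1 ∧ ∀ d ∈ s, σ (y d) = y d := by
    intro σ
    rw [mem_fixingSubgroup_iff]
    constructor
    · intro h
      exact ⟨h x1 (by simp), fun d hd => h (y d) (Set.mem_union_right _ ⟨d, hd, rfl⟩)⟩
    · rintro ⟨h1, h2⟩ x (hx | ⟨d, hd, rfl⟩)
      · rw [Set.mem_singleton_iff] at hx
        rw [hx]; exact h1
      · exact h2 d hd
  let E1b : IntermediateField K F' := IntermediateField.fixedField (H1.map ψ.toMonoidHom)
  let E1 : IntermediateField K F' := ((IsScalarTower.toAlgHom K M Kb).fieldRange.comap j) ⊓ E1b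
  have hE1b : ∀ x, x ∈ E1b ↔ ∀ σ ∈ H1, ψ σ x = x := by
    intro x
    rw [IntermediateField.mem_fixedField_iff]
    constructor
    · intro h σ hσ
      exact h _ (Subgroup.mem_map_of_mem _ hσ)
    · rintro h _ ⟨σ, hσ, rfl⟩
      exact h σ hσ
  have hE1 : ∀ x, x ∈ E1 ↔ j x ∈ (algebraMap M Kb).range ∧ ∀ σ ∈ H1, ψ σ x = x := by
    intro x
    simp only [E1]
    rw [IntermediateField.mem_inf, hE1b]
    rfl
  have hcomm : ∀ x, j x ∈ (algebraMap M Kb).range → ∀ σ τ : F' ≃ₐ[K] F', σ (τ x) = τ (σ x) :=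
    fun x hx σ τ => comm_lemma hab j x hx σ τ
  -- the predicate
  let G' : (E ≃ₐ[RQ K] E) → Prop := fun σ => ∀ x ∈ E1, ψ σ x = x
  have hG'mul : ∀ σ τ, G' σ → G' τ → G' (σ * τ) := by
    intro σ τ hσ hτ x hx
    rw [map_mul, AlgEquiv.mul_apply, hτ x hx, hσ x hx]
  have hG'one : G' 1 := by
    intro x _
    rw [map_one, AlgEquiv.one_apply]
  have hcorr : ∀ x : F', (∀ σ, G' σ → ψ σ x = x) → x ∈ E1 := by
    intro x hx
    rw [← IsGalois.fixedField_fixingSubgroup E1, IntermediateField.mem_fixedField_iff]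
    intro τ hτ
    have h1 : G' (ψ.symm τ) := by
      intro u hu
      rw [MulEquiv.apply_symm_apply]
      rw [IntermediateField.mem_fixingSubgroup_iff] at hτ
      exact hτ u hu
    have h2 := hx _ h1
    rwa [MulEquiv.apply_symm_apply] at h2
  -- G' fixes x1
  have hX1E1 : Φ X1 ∈ E1 := by
    rw [hE1]
    refine ⟨⟨m0, hm0⟩, ?_⟩
    intro σ hσ
    rw [← hΦψ]
    congr 1
    apply Subtype.ext
    exact ((hH1 σ).mp hσ).1
  have hG'x1 : ∀ σ, G' σ → σ x1 = x1 := by
    intro σ hσ
    have h1 := hσ _ hX1E1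
    rw [← hΦψ] at h1
    have h2 := phi_inj' B κB hκB Φ _ _ (hσalg σ x1 hx1alg) hx1alg h1
    exact congrArg Subtype.val h2
  -- H2 is contained in G'
  have hroot1 : ∀ x : E, ((f.map (eval₂RingHom κ (t x1))).eval x = 0) → ∃ d ∈ s, x = y d := by
    intro x hx
    rw [hf1, eval_prod, Finset.prod_eq_zero_iff] at hx
    obtain ⟨d, hd, hd0⟩ := hx
    rw [eval_sub, eval_X, eval_C, sub_eq_zero] at hd0
    exact ⟨d, hd, hd0⟩
  have hroot2 : ∀ x : E, ((f.map (eval₂RingHom κ (t x2))).eval x = 0) → ∃ d ∈ s, x = y' d := by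
    intro x hx
    rw [hf2, eval_prod, Finset.prod_eq_zero_iff] at hx
    obtain ⟨d, hd, hd0⟩ := hx
    rw [eval_sub, eval_X, eval_C, sub_eq_zero] at hd0
    exact ⟨d, hd, hd0⟩
  have hrooty : ∀ d ∈ s, (f.map (eval₂RingHom κ (t x1))).eval (y d) = 0 := by
    intro d hd
    rw [hf1, eval_prod]
    apply Finset.prod_eq_zero hd
    simp
  have hσf : ∀ (σ : E ≃ₐ[RQ K] E) (u x : E),
      σ ((f.map (eval₂RingHom κ u)).eval x) = (f.map (eval₂RingHom κ (σ u))).eval (σ x) := by
    intro σ u x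
    have e1 : (σ : E →+* E).comp (eval₂RingHom κ u) = eval₂RingHom κ (σ u) := by
      apply Polynomial.ringHom_ext
      · intro k
        simp only [RingHom.comp_apply, coe_eval₂RingHom, eval₂_C]
        exact hσκ σ k
      · simp only [RingHom.comp_apply, coe_eval₂RingHom, eval₂_X]
        rfl
    rw [← e1, ← map_map]
    change (σ : E →+* E) _ = Polynomial.eval ((σ : E →+* E) x) _
    rw [eval_map_apply]
  have hH2 : ∀ σ : E ≃ₐ[RQ K] E, σ x2 = x2 → (∀ d ∈ s, σ (y' d) = y' d) → G' σ := by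
    intro σ hσ1 hσ2 x hx
    -- the conjugating element
    have hmin : minpoly K (Φ X1) = m := (minpoly.eq_of_irreducible_of_monic hmi hΦX1 hmm).symm
    obtain ⟨τ', hτ'⟩ := minpoly.exists_algEquiv_of_root' (K := K) (L := F')
      (x := Φ X2) (y := Φ X1) (Algebra.IsAlgebraic.isAlgebraic _) (by rw [hmin]; exact hΦX2)
    let τ : E ≃ₐ[RQ K] E := ψ.symm τ'
    have hτ1 : τ x1 = x2 := by
      have h1 : Φ ⟨τ x1, hB τ X1⟩ = Φ X2 := by
        rw [← hτ']
        have h2 := hΦψ τ X1
        rw [MulEquiv.apply_symm_apply] at h2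
        exact h2
      have h2 := phi_inj' B κB hκB Φ _ _ (hσalg τ x1 hx1alg) hx2alg h1
      exact congrArg Subtype.val h2
    have hτy : ∀ d ∈ s, ∃ d' ∈ s, τ (y d) = y' d' := by
      intro d hd
      apply hroot2
      rw [← hτ1, ← hσt, ← hσf, hrooty d hd, map_zero]
    have hρ : τ⁻¹ * σ * τ ∈ H1 := by
      rw [hH1]
      constructor
      · rw [AlgEquiv.mul_apply, AlgEquiv.mul_apply, hτ1, hσ1, ← hτ1, ← AlgEquiv.mul_apply,
          inv_mul_cancel, AlgEquiv.one_apply]
      · intro d hd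
        obtain ⟨d', hd', hdd⟩ := hτy d hd
        rw [AlgEquiv.mul_apply, AlgEquiv.mul_apply, hdd, hσ2 d' hd', ← hdd, ← AlgEquiv.mul_apply,
          inv_mul_cancel, AlgEquiv.one_apply]
    have hx' := (hE1 x).mp hx
    have h3 := hx'.2 _ hρ
    have h4 : ψ σ = ψ τ * ψ (τ⁻¹ * σ * τ) * (ψ τ)⁻¹ := by
      simp only [map_mul, map_inv]
      group
    rw [h4, AlgEquiv.mul_apply, AlgEquiv.mul_apply, hcomm x hx'.1, h3, ← AlgEquiv.mul_apply,
      mul_inv_cancel, AlgEquiv.one_apply]
  -- the orbit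
  have hfdeg : 0 < f.natDegree := by
    rw [Nat.pos_iff_ne_zero]
    intro h0
    apply hfi0.not_isUnit
    rw [hfm.natDegree_eq_zero.mp h0]
    exact isUnit_one
  obtain ⟨d0, hd0⟩ : s.Nonempty := by
    rw [← Finset.card_pos, hscard]; exact hfdeg
  let O : Finset Kb := s.filter fun d => ∃ σ : E ≃ₐ[RQ K] E, G' σ ∧ σ (y d0) = y d
  have hOs : O ⊆ s := Finset.filter_subset _ _
  have hO : ∀ d, d ∈ O ↔ d ∈ s ∧ ∃ σ : E ≃ₐ[RQ K] E, G' σ ∧ σ (y d0) = y d := fun d =>
    Finset.mem_filter
  have hd0O : d0 ∈ O := (hO d0).mpr ⟨hd0, 1, hG'one, rfl⟩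
  have hstab : ∀ σ : E ≃ₐ[RQ K] E, G' σ → ∀ d ∈ O, ∃ d' ∈ O, σ (y d) = y d' := by
    intro σ hσ d hd
    obtain ⟨hds, τ, hτ, hτd⟩ := (hO d).mp hd
    have h1 : (f.map (eval₂RingHom κ (t x1))).eval (σ (y d)) = 0 := by
      have h2 := hσf σ (t x1) (y d)
      rw [hrooty d hds, map_zero, hσt, hG'x1 σ hσ] at h2
      exact h2.symm
    obtain ⟨d', hd', hdd⟩ := hroot1 _ h1
    refine ⟨d', (hO d').mpr ⟨hd', σ * τ, hG'mul σ τ hσ hτ, ?_⟩, hdd⟩
    rw [AlgEquiv.mul_apply, hτd, hdd]
  have hPO : ∀ σ : E ≃ₐ[RQ K] E, G' σ →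
      (∏ d ∈ O, (X - C (y d))).map (σ : E →+* E) = ∏ d ∈ O, (X - C (y d)) := fun σ hσ =>
    prod_map_eq (σ : E →+* E) O y (hyinj.mono hOs) (hstab σ hσ)
  obtain ⟨p, hpm, hpW, hpalg, hpt, hpd⟩ := hkey O hOs (by
    intro i σ h1 h2
    have h3 := hPO σ (hH2 σ h1 h2)
    have h4 := congrArg (fun q : E[X] => q.coeff i) h3
    simp only [coeff_map] at h4
    exact h4)
  -- the coefficients of p are fixed by G'
  have hpfix : ∀ σ : E ≃ₐ[RQ K] E, G' σ → ∀ i k, σ ((p.coeff i).coeff k) = (p.coeff i).coeff k := by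
    intro σ hσ i k
    have h1 : (p.coeff i).map (σ : E →+* E) - p.coeff i = 0 := by
      apply huniq
      · intro k
        have h2 : IsAlgebraic K (σ ((p.coeff i).coeff k) - (p.coeff i).coeff k) :=
          (hσalg σ _ (hpalg i k)).sub (hpalg i k)
        rw [coeff_sub, coeff_map]
        exact h2
      · have h3 : (p.coeff i).eval (t x1) = (∏ d ∈ O, (X - C (y d))).coeff i := by
          rw [← hpt, coeff_map]
          rfl
        have h4 : ((p.coeff i).map (σ : E →+* E)).eval (t x1) = σ ((p.coeff i).eval (t x1)) := by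
          have h5 : t x1 = (σ : E →+* E) (t x1) := by
            change t x1 = σ (t x1)
            rw [hσt, hG'x1 σ hσ]
          conv_lhs => rw [h5]
          rw [eval_map_apply]
          rfl
        have h6 := congrArg (fun q : E[X] => q.coeff i) (hPO σ hσ)
        simp only [coeff_map] at h6
        rw [eval_sub, h4, h3, sub_eq_zero]
        exact h6
    have h7 := congrArg (fun q : E[X] => q.coeff k) h1
    simp only [coeff_sub, coeff_map, coeff_zero, sub_eq_zero] at h7
    exact h7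
  obtain ⟨pM, hpMm, hpMd, hpMdvd⟩ := transport (M := M) B ((j : F' →+* Kb).comp Φ) κ κB hκB
    (by
      intro k
      simp only [RingHom.comp_apply, hΦκ]
      exact AlgHom.commutes j k) f p hpm
    (by
      intro i k
      refine ⟨⟨(p.coeff i).coeff k, hWB (hpW i k)⟩, rfl, ?_⟩
      have h1 : Φ ⟨(p.coeff i).coeff k, hWB (hpW i k)⟩ ∈ E1 := by
        apply hcorr
        intro σ hσ
        rw [← hΦψ]
        congr 1
        apply Subtype.ext
        exact hpfix σ hσ i k
      exact ((hE1 _).mp h1).1) hpd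
  have hpdeg : p.natDegree = O.card := by
    rw [← hpm.natDegree_map (evalRingHom (t x1)), hpt,
      natDegree_prod_of_monic _ _ (fun c _ => monic_X_sub_C _)]
    simp
  have hOeq : O = s := by
    apply Finset.eq_of_subset_of_card_le hOs
    obtain ⟨q, hq⟩ := hpMdvd
    have hqm : q.Monic := by
      have h1 : (f.map (mapRingHom (algebraMap K M))).Monic := hfm.map _
      rw [hq] at h1
      exact hpMm.of_mul_monic_left h1
    rcases hfi.isUnit_or_isUnit hq with hu | hu
    · exfalso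
      have h1 := hpMm.eq_one_of_isUnit hu
      rw [h1, natDegree_one, hpdeg] at hpMd
      have h2 : 0 < O.card := Finset.card_pos.mpr ⟨d0, hd0O⟩
      omega
    · have h1 := hqm.eq_one_of_isUnit hu
      rw [h1, mul_one] at hq
      rw [hscard, ← hpdeg, ← hpMd, ← hq, hfm.natDegree_map]
  -- the final step
  set ζ : Kb := j (z d0) with hζ
  have hζi : IsIntegral M ζ := Algebra.IsIntegral.isIntegral ζ
  set q : M[X] := minpoly M ζ with hq
  have hqm : q.Monic := minpoly.monic hζi
  have hqirr : Irreducible q := minpoly.irreducible hζi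
  have hfaζ : aeval ζ fa = 0 := by
    rw [← eval_map_algebraMap, hfaK, hζ]
    change Polynomial.eval ((j : F' →+* Kb) (z d0)) _ = 0
    rw [eval_map_apply, eval_prod, Finset.prod_eq_zero hd0 (by simp), map_zero]
  have hqfa : q ∣ fa := minpoly.dvd M ζ hfaζ
  have hlift : q.map (algebraMap M Kb) ∈ Polynomial.lifts ((j : F' →+* Kb).comp E1b.val.toRingHom) := by
    apply (IsAlgClosed.splits (q.map (algebraMap M Kb))).mem_lift_of_roots_mem_range (hqm.map _)
    intro x hx
    have h1 : x ∈ (fa.map (algebraMap M Kb)).roots :=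
      Multiset.subset_of_le (roots.le_of_dvd ((hfam.map _).ne_zero) (Polynomial.map_dvd _ hqfa)) hx
    rw [mem_roots ((hfam.map _).ne_zero), IsRoot, hfaK, Polynomial.map_prod, eval_prod,
      Finset.prod_eq_zero_iff] at h1
    obtain ⟨d, hd, hd1⟩ := h1
    rw [Polynomial.map_sub, map_X, map_C, eval_sub, eval_X, eval_C, sub_eq_zero] at hd1
    refine ⟨⟨z d, ?_⟩, hd1.symm⟩
    rw [hE1b]
    intro σ hσ
    simp only [z]
    rw [← hΦψ]
    congr 1
    apply Subtype.ext
    change σ (Y d : E) = (Y d : E)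
    rw [hY d hd]
    exact ((hH1 σ).mp hσ).2 d hd
  obtain ⟨q1, hq1⟩ := (mem_lifts _).mp hlift
  let q' : F'[X] := q1.map E1b.val.toRingHom
  have hq'j : q'.map (j : F' →+* Kb) = q.map (algebraMap M Kb) := by
    simp only [q']
    rw [map_map]; exact hq1
  have hq'E1 : ∀ i, q'.coeff i ∈ E1 := by
    intro i
    rw [hE1]
    constructor
    · have h1 := congrArg (fun u : Kb[X] => u.coeff i) hq'j
      simp only [coeff_map] at h1
      exact ⟨q.coeff i, h1.symm⟩
    · rw [← hE1b]
      simp only [q', coeff_map]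
      exact (q1.coeff i).2
  have hq'0 : q' ≠ 0 := by
    intro h0
    rw [h0, Polynomial.map_zero] at hq'j
    exact (hqm.map (algebraMap M Kb)).ne_zero hq'j.symm
  have hq'z : ∀ d ∈ s, q'.eval (z d) = 0 := by
    intro d hd
    rw [← hOeq] at hd
    obtain ⟨-, σ, hσ, hσd⟩ := (hO d).mp hd
    have h1 : z d = ψ σ (z d0) := by
      simp only [z]
      rw [← hΦψ]
      congr 1
      apply Subtype.ext
      change (Y d : E) = σ (Y d0 : E)
      rw [hY d (hOs hd), hY d0 hd0, hσd]
    have h2 : q'.eval (z d0) = 0 := by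
      apply hj
      change (j : F' →+* Kb) _ = _
      rw [← eval_map_apply, hq'j, eval_map_algebraMap, map_zero]
      exact minpoly.aeval M ζ
    have h3 : q'.map (ψ σ : F' →+* F') = q' := by
      ext i
      rw [coeff_map]
      exact hσ _ (hq'E1 i)
    rw [h1, ← h3]
    change Polynomial.eval ((ψ σ : F' →+* F') (z d0)) _ = 0
    rw [eval_map_apply, h2, map_zero]
  have hcard : s.card ≤ q'.natDegree := by
    rw [← Finset.card_image_of_injOn hzinj]
    apply le_trans _ (card_roots' q')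
    apply le_trans _ (Multiset.toFinset_card_le _)
    apply Finset.card_le_card
    intro x hx
    rw [Finset.mem_image] at hx
    obtain ⟨d, hd, rfl⟩ := hx
    rw [Multiset.mem_toFinset, mem_roots hq'0]
    exact hq'z d hd
  have hqdeg : q'.natDegree = q.natDegree := by
    have e1 : (q'.map (j : F' →+* Kb)).natDegree = q'.natDegree := natDegree_map _
    have e2 : (q.map (algebraMap M Kb)).natDegree = q.natDegree := natDegree_map _
    rw [← e1, hq'j, e2]
  have hfaq : q = fa := by
    apply eq_of_dvd_monic hqm hfam hqfa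
    rw [hfa, (hfm.map _).natDegree_map, hfm.natDegree_map, ← hscard, ← hqdeg]
    exact hcard
  rw [← hfaq]
  exact hqirr

end Pool.Agent.H298R2.Kuyk
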