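import Mathlib
import Pool.Agent.H298R2.Kuyk11
import Pool.Agent.H793R2.HilbFin

/-! Kuyk's theorem: a (possibly infinite) abelian extension of a Hilbertian field of
characteristic zero is Hilbertian (helper298, task K of helper391). -/

set_option autoImplicit false

namespace Pool.Agent.H298R2.Kuyk

open Polynomial
open Pool.Agent.H391R2.T4 (HilbField)

theorem taskK : Pool.Agent.H391R2.T4.TaskK := by
  classical
  intro K M _ _ _ _ _ hab hK f hfm hfi hsep g hg
  by_cases hfd : FiniteDimensional K M
  · exact Pool.Agent.H793R2.HilbFin.taskE2 K M hK f hfm hfi hsep g hg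
  let S : Finset M := f.support.biUnion fun i => (f.coeff i).coeffs
  let K1 : IntermediateField K M := IntermediateField.adjoin K (S : Set M)
  have hfd1 : FiniteDimensional K K1 :=
    IntermediateField.finiteDimensional_adjoin fun x _ => Algebra.IsIntegral.isIntegral x
  have hK1 : HilbField K1 := Pool.Agent.H793R2.HilbFin.taskE2 K K1 hK
  have hgal : IsGalois K1 M := inferInstance
  have hab1 : ∀ σ τ : M ≃ₐ[K1] M, σ * τ = τ * σ := by
    intro σ τ
    have h1 := hab (σ.restrictScalars K) (τ.restrictScalars K)
    ext x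
    exact congrArg (fun e : M ≃ₐ[K] M => e x) h1
  have hS : ∀ i k, (f.coeff i).coeff k ∈ (algebraMap K1 M).range := by
    intro i k
    by_cases h0 : (f.coeff i).coeff k = 0
    · rw [h0]; exact Subring.zero_mem _
    · refine ⟨⟨(f.coeff i).coeff k, IntermediateField.subset_adjoin K _ ?_⟩, rfl⟩
      simp only [S, Finset.coe_biUnion, Set.mem_iUnion]
      refine ⟨i, ?_, ?_⟩
      · rw [Finset.mem_coe, mem_support_iff]
        intro h1
        rw [h1, coeff_zero] at h0
        exact h0 rfl
      · rw [Finset.mem_coe, mem_coeffs_iff]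
        exact ⟨k, mem_support_iff.mpr h0, rfl⟩
  obtain ⟨f1, hf1⟩ := lifts2 (algebraMap K1 M) f hS
  have hf1m : f1.Monic := by
    have hinj : Function.Injective (mapRingHom (algebraMap K1 M)) :=
      Polynomial.map_injective _ (algebraMap K1 M).injective
    apply monic_of_injective hinj
    rw [hf1]; exact hfm
  have hex : ∃ w : M, w ∉ (algebraMap K1 M).range := by
    by_contra hcon
    push Not at hcon
    apply hfd
    have htop : K1 = ⊤ := by
      rw [eq_top_iff]
      intro x _
      obtain ⟨y, hy⟩ := hcon x
      rw [← hy]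
      exact y.2
    rw [htop] at hfd1
    exact FiniteDimensional.of_surjective
      (IntermediateField.topEquiv (F := K) (E := M)).toLinearEquiv.toLinearMap
      (IntermediateField.topEquiv (F := K) (E := M)).surjective
  obtain ⟨w, hw⟩ := hex
  obtain ⟨a, ha1, ha2⟩ := kuyk_core hab1 hK1 f1 hf1m (by rw [hf1]; exact hfi) g hg w hw
  refine ⟨a, ha1, ?_⟩
  rw [hf1] at ha2
  exact ha2

end Pool.Agent.H298R2.Kuyk
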